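import Pool.Agent.L0h43.TB.More

/-!
# Adding elements one at a time: the abstract induction
-/

set_option autoImplicit false

namespace Pool.Agent.L0h43.TF

open Finset Pool.Agent.L0h43.TB

/-- the hypotheses of the induction -/
structure Fam0 (J : Finset ℕ) (E F : Finset ℕ → ℝ) (k : ℕ) (c ρ h η : ℝ) : Prop where
  c0 : 0 < c
  c1 : c ≤ 1
  ρ0 : 0 < ρ
  h0 : 0 < h
  η0 : 0 ≤ η
  η1 : η ≤ 1
  E0 : ∀ D, 0 ≤ E D
  F0 : ∀ D, 0 ≤ F D
  card : ∀ D ⊆ J, ρ * ((J \ D).card : ℝ) ≤ 2 * h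
  tot : ∀ D ⊆ J, D.card < k → ∑ x ∈ J \ D, E (insert x D) ≤ 3 * h * E D
  low : ∀ D ⊆ J, D.card < k → ∀ g : ℕ → ℝ, (∀ x, 0 ≤ g x) → (∀ x, g x ≤ 1) →
    c * ρ * (∑ x ∈ J \ D, g x) * F D - η * h * E D ≤ ∑ x ∈ J \ D, g x * F (insert x D)

variable {J : Finset ℕ} {E F : Finset ℕ → ℝ} {k : ℕ} {c ρ h η : ℝ}

lemma Fam0.mono (H : Fam0 J E F (k + 1) c ρ h η) : Fam0 J E F k c ρ h η where
  c0 := H.c0
  c1 := H.c1
  ρ0 := H.ρ0
  h0 := H.h0
  η0 := H.η0
  η1 := H.η1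
  E0 := H.E0
  F0 := H.F0
  card := H.card
  tot := fun D hD hk => H.tot D hD (by omega)
  low := fun D hD hk => H.low D hD (by omega)

lemma Fam0.total (H : Fam0 J E F k c ρ h η) : ∑ D ∈ J.powersetCard k, E D ≤ (3 * h) ^ k * E ∅ := by
  classical
  induction k with
  | zero => rw [powersetCard_zero, sum_singleton, pow_zero, one_mul]
  | succ k ih =>
    have ih := ih H.mono
    have h1 := sum_ins J k E
    have h2 : ∑ D ∈ J.powersetCard k, ∑ x ∈ J \ D, E (insert x D) ≤ ∑ D ∈ J.powersetCard k, (3 * h) * E D := by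
      apply sum_le_sum
      intro D hD
      rw [mem_powersetCard] at hD
      exact H.tot D hD.1 (by omega)
    rw [← mul_sum] at h2
    have h3 : 0 ≤ ∑ D ∈ J.powersetCard (k + 1), E D := sum_nonneg fun D _ => H.E0 D
    have h4 : ∑ D ∈ J.powersetCard (k + 1), E D ≤ ((k + 1 : ℕ) : ℝ) * ∑ D ∈ J.powersetCard (k + 1), E D := by
      apply le_mul_of_one_le_left h3
      push_cast
      linarith [Nat.cast_nonneg (α := ℝ) k]
    have h5 : (3 * h) * ∑ D ∈ J.powersetCard k, E D ≤ (3 * h) * ((3 * h) ^ k * E ∅) :=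
      mul_le_mul_of_nonneg_left ih (by linarith [H.h0])
    rw [pow_succ]
    have e : (3 * h) ^ k * (3 * h) * E ∅ = (3 * h) * ((3 * h) ^ k * E ∅) := by ring
    rw [e]
    linarith

/-- the weights of the sets with one element less -/
lemma Fam0.wt (H : Fam0 J E F k c ρ h η) (g : Finset ℕ → ℝ) (hg0 : ∀ D, 0 ≤ g D) (hg1 : ∀ D, g D ≤ 1) :
    ∃ g' : Finset ℕ → ℝ, (∀ D, 0 ≤ g' D) ∧ (∀ D, g' D ≤ 1) ∧
      ∀ D ⊆ J, 2 * h * g' D = ρ * ∑ x ∈ J \ D, g (insert x D) := by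
  classical
  refine ⟨fun D => if D ⊆ J then ρ * (∑ x ∈ J \ D, g (insert x D)) / (2 * h) else 0, ?_, ?_, ?_⟩
  · intro D
    simp only
    split_ifs
    · have h1 : 0 ≤ ∑ x ∈ J \ D, g (insert x D) := sum_nonneg fun x _ => hg0 _
      have := H.ρ0
      have := H.h0
      positivity
    · exact le_rfl
  · intro D
    simp only
    split_ifs with hD
    · rw [div_le_one (by linarith [H.h0])]
      refine le_trans ?_ (H.card D hD)
      apply mul_le_mul_of_nonneg_left _ H.ρ0.le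
      calc ∑ x ∈ J \ D, g (insert x D) ≤ ∑ _x ∈ J \ D, (1 : ℝ) := sum_le_sum fun x _ => hg1 _
        _ = _ := by rw [sum_const, nsmul_eq_mul, mul_one]
    · exact zero_le_one
  · intro D hD
    simp only
    rw [if_pos hD]
    have := H.h0
    field_simp

lemma Fam0.lower (H : Fam0 J E F k c ρ h η) : ∀ g : Finset ℕ → ℝ, (∀ D, 0 ≤ g D) → (∀ D, g D ≤ 1) →
    (c * ρ) ^ k * (∑ D ∈ J.powersetCard k, g D) * F ∅ - η * 6 ^ k * h ^ k * E ∅ ≤
      ∑ D ∈ J.powersetCard k, g D * F D := by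
  classical
  induction k with
  | zero =>
    intro g hg0 hg1
    rw [powersetCard_zero, sum_singleton, sum_singleton, pow_zero, pow_zero, pow_zero, one_mul, mul_one, mul_one]
    have := mul_nonneg H.η0 (H.E0 ∅)
    linarith
  | succ k ih =>
    intro g hg0 hg1
    obtain ⟨g', hg'0, hg'1, hg'⟩ := H.wt g hg0 hg1
    have ih := ih H.mono g' hg'0 hg'1
    have hV := H.mono.total
    have hh := H.h0
    have hρ := H.ρ0
    have hη := H.η0
    have hc := H.c0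
    have hE := H.E0 ∅
    have h1 := sum_ins J k (fun D => g D * F D)
    have h1' := sum_ins J k g
    have h2 : ∑ D ∈ J.powersetCard k, (c * (2 * h) * (g' D * F D) - η * h * E D) ≤
        ∑ D ∈ J.powersetCard k, ∑ x ∈ J \ D, g (insert x D) * F (insert x D) := by
      apply sum_le_sum
      intro D hD
      rw [mem_powersetCard] at hD
      have h3 := H.low D hD.1 (by omega) (fun x => g (insert x D)) (fun _ => hg0 _) (fun _ => hg1 _)
      refine le_trans (le_of_eq ?_) h3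
      have e : c * (2 * h) * (g' D * F D) = c * (2 * h * g' D) * F D := by ring
      rw [e, hg' D hD.1]
      ring
    rw [sum_sub_distrib, ← mul_sum, ← mul_sum] at h2
    have h4 : 2 * h * ∑ D ∈ J.powersetCard k, g' D = ρ * ∑ D ∈ J.powersetCard k, ∑ x ∈ J \ D, g (insert x D) := by
      rw [mul_sum, mul_sum]
      apply sum_congr rfl
      intro D hD
      rw [mem_powersetCard] at hD
      exact hg' D hD.1
    rw [← h1'] at h4
    rw [← h1] at h2
    obtain ⟨X, hX⟩ : ∃ X, X = ∑ D ∈ J.powersetCard (k + 1), g D * F D := ⟨_, rfl⟩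
    obtain ⟨Y, hY⟩ : ∃ Y, Y = ∑ D ∈ J.powersetCard (k + 1), g D := ⟨_, rfl⟩
    obtain ⟨Z, hZ⟩ : ∃ Z, Z = ∑ D ∈ J.powersetCard k, g' D * F D := ⟨_, rfl⟩
    obtain ⟨V, hV'⟩ : ∃ V, V = ∑ D ∈ J.powersetCard k, E D := ⟨_, rfl⟩
    obtain ⟨G, hG⟩ : ∃ G, G = ∑ D ∈ J.powersetCard k, g' D := ⟨_, rfl⟩
    obtain ⟨κ, hκ⟩ : ∃ κ : ℝ, κ = ((k + 1 : ℕ) : ℝ) := ⟨_, rfl⟩
    have hκ1 : 1 ≤ κ := by
      rw [hκ]; push_cast
      linarith [Nat.cast_nonneg (α := ℝ) k]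
    rw [← hX, ← hZ, ← hV', ← hκ] at h2
    rw [← hG, ← hY, ← hκ] at h4
    rw [← hV'] at hV
    rw [← hZ, ← hG] at ih
    rw [← hX, ← hY]
    have a1 : c * (2 * h) * ((c * ρ) ^ k * G * F ∅ - η * 6 ^ k * h ^ k * E ∅) ≤ c * (2 * h) * Z :=
      mul_le_mul_of_nonneg_left ih (by positivity)
    have a2 : c * (2 * h) * ((c * ρ) ^ k * G * F ∅ - η * 6 ^ k * h ^ k * E ∅) =
        κ * ((c * ρ) ^ (k + 1) * Y * F ∅) - c * (2 * (η * 6 ^ k * h ^ (k + 1) * E ∅)) := by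
      have e : c * (2 * h) * ((c * ρ) ^ k * G * F ∅) = (c * ρ) ^ k * c * (2 * h * G) * F ∅ := by ring
      rw [mul_sub, e, h4, pow_succ, pow_succ]
      ring
    have a3 : η * h * V ≤ η * h * ((3 * h) ^ k * E ∅) := mul_le_mul_of_nonneg_left hV (by positivity)
    have a4 : η * h * ((3 * h) ^ k * E ∅) ≤ η * 6 ^ k * h ^ (k + 1) * E ∅ := by
      have e : η * h * ((3 * h) ^ k * E ∅) = η * 3 ^ k * h ^ (k + 1) * E ∅ := by
        rw [mul_pow, pow_succ]; ring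
      rw [e]
      apply mul_le_mul_of_nonneg_right _ hE
      apply mul_le_mul_of_nonneg_right _ (by positivity)
      apply mul_le_mul_of_nonneg_left _ hη
      exact pow_le_pow_left₀ (by norm_num) (by norm_num) k
    obtain ⟨R, hR⟩ : ∃ R, R = η * 6 ^ k * h ^ (k + 1) * E ∅ := ⟨_, rfl⟩
    have hR0 : 0 ≤ R := by rw [hR]; positivity
    have e6 : η * 6 ^ (k + 1) * h ^ (k + 1) * E ∅ = 6 * R := by rw [hR, pow_succ]; ring
    rw [e6]
    rw [← hR] at a2 a4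
    have a6 : c * (2 * R) ≤ 2 * R := mul_le_of_le_one_left (by linarith) H.c1
    have a5 : κ * ((c * ρ) ^ (k + 1) * Y * F ∅ - 6 * R) ≤ κ * X := by
      have : κ * (6 * R) ≥ 6 * R := le_mul_of_one_le_left (by linarith) hκ1
      rw [mul_sub]
      linarith
    exact le_of_mul_le_mul_left a5 (by linarith)

lemma Fam0.succ {J : Finset ℕ} {E F : Finset ℕ → ℝ} {k : ℕ} {c ρ h η : ℝ} (H : Fam0 J E F k c ρ h η)
    (tot : ∀ D ⊆ J, D.card = k → ∑ x ∈ J \ D, E (insert x D) ≤ 3 * h * E D)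
    (low : ∀ D ⊆ J, D.card = k → ∀ g : ℕ → ℝ, (∀ x, 0 ≤ g x) → (∀ x, g x ≤ 1) →
      c * ρ * (∑ x ∈ J \ D, g x) * F D - η * h * E D ≤ ∑ x ∈ J \ D, g x * F (insert x D)) :
    Fam0 J E F (k + 1) c ρ h η where
  c0 := H.c0
  c1 := H.c1
  ρ0 := H.ρ0
  h0 := H.h0
  η0 := H.η0
  η1 := H.η1
  E0 := H.E0
  F0 := H.F0
  card := H.card
  tot := fun D hD hk => by
    rcases Nat.lt_succ_iff_lt_or_eq.1 hk with h1 | h1
    · exact H.tot D hD h1
    · exact tot D hD h1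
  low := fun D hD hk => by
    rcases Nat.lt_succ_iff_lt_or_eq.1 hk with h1 | h1
    · exact H.low D hD h1
    · exact low D hD h1

end Pool.Agent.L0h43.TF
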