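import Pool.Agent.L0h43.TF.Sg
import Pool.Agent.L0h43.TD.Nbr
import Pool.Agent.L0h10.GE.GBL

/-!
# Every even number: the sum over the classes
-/

set_option autoImplicit false

namespace Pool.Agent.L0h43.TF

open Finset Filter Topology Pool.Agent.H387R2
open Pool.Agent.L0h43.TA Pool.Agent.L0h43.TB Pool.Agent.L0h43.TD
open Pool.Agent.H386R2.HL
open Pool.Agent.L0h43.TE (FS FS_ins FS_empty FS_sub sdiff_un Jv_pow)

lemma swap3 (R : Finset ℕ) (P P' : Finset (Finset ℕ)) (a : ℕ → Prop) (b b' : ℕ → Finset ℕ → Prop)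
    (c : ℕ → Finset ℕ → Finset ℕ → Prop) [DecidablePred a] [∀ ν, DecidablePred (b ν)] [∀ ν, DecidablePred (b' ν)]
    [∀ ν D D', Decidable (c ν D D')] (h : ∀ ν ∈ R, ∀ D D', c ν D D' ↔ a ν ∧ b ν D ∧ b' ν D')
    (f : ℕ → Finset ℕ → Finset ℕ → ℝ) :
    ∑ ν ∈ R.filter a, ∑ D ∈ P.filter (b ν), ∑ D' ∈ P'.filter (b' ν), f ν D D' =
      ∑ D ∈ P, ∑ D' ∈ P', ∑ ν ∈ R.filter (fun ν => c ν D D'), f ν D D' := by
  simp only [sum_filter]
  have h1 : ∀ D ∈ P, ∑ D' ∈ P', ∑ ν ∈ R, (if c ν D D' then f ν D D' else 0) =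
      ∑ ν ∈ R, ∑ D' ∈ P', (if c ν D D' then f ν D D' else 0) := fun D _ => sum_comm
  rw [sum_congr rfl h1, sum_comm]
  apply sum_congr rfl
  intro ν hν
  by_cases ha : a ν
  · rw [if_pos ha]
    apply sum_congr rfl
    intro D _
    by_cases hb : b ν D
    · rw [if_pos hb]
      apply sum_congr rfl
      intro D' _
      by_cases hb' : b' ν D'
      · rw [if_pos hb', if_pos ((h ν hν D D').2 ⟨ha, hb, hb'⟩)]
      · rw [if_neg hb', if_neg (fun hc => hb' ((h ν hν D D').1 hc).2.2)]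
    · rw [if_neg hb]
      symm
      apply sum_eq_zero
      intro D' _
      rw [if_neg (fun hc => hb ((h ν hν D D').1 hc).2.1)]
  · rw [if_neg ha]
    symm
    apply sum_eq_zero
    intro D _
    apply sum_eq_zero
    intro D' _
    rw [if_neg (fun hc => ha ((h ν hν D D').1 hc).1)]

open Classical in
/-- the primes `n` with `√N < n ≤ N`, `√N < N - n`, for which `N - n` is an almost prime -/
noncomputable def SB (N : ℕ) : Finset ℕ :=
  (Ioc (Nat.sqrt N) N).filter (fun n => n.Prime ∧ AP N (N - n) ∧ Nat.sqrt N < N - n)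

lemma SB_RN {N W ν : ℕ} (hN1 : 1 ≤ N) (hsq : (N : ℝ) ^ (1 / 16 : ℝ) ≤ Nat.sqrt N) :
    (SB N).filter (fun n => n % W = ν) ⊆ RN N W ν := by
  classical
  have hNR : (1 : ℝ) ≤ N := by exact_mod_cast hN1
  intro n hn
  unfold SB at hn
  rw [mem_filter, mem_filter, mem_Ioc] at hn
  obtain ⟨⟨h1, h2, h3, h4⟩, h5⟩ := hn
  unfold RN
  rw [mem_filter, mem_Ioc]
  refine ⟨h1, h5, h4, ?_, ?_⟩
  · intro p hp hpn
    rw [(Nat.prime_dvd_prime_iff_eq hp h2).1 hpn]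
    have : ((Nat.sqrt N : ℕ) : ℝ) ≤ n := by exact_mod_cast h1.1.le
    linarith
  · intro p hp hpn
    have h6 := h3.2 p hp hpn
    have h8 : (N : ℝ) ^ (1 / 16 : ℝ) ≤ (N : ℝ) ^ (3 / 25 : ℝ) :=
      Real.rpow_le_rpow_of_exponent_le hNR (by norm_num)
    linarith

lemma SB_low (hGBL : S_GBL) : ∃ κ : ℝ, 0 < κ ∧ κ ≤ 1 ∧ ∀ w : ℕ, 8 ≤ w → ∃ N₀ : ℕ, ∀ N : ℕ, N₀ ≤ N → Even N →
    ∀ ν : ℕ, ν < Uni.WW w → OK (Uni.WW w) ν {0, sh N 0} →
    κ * Fw N w ≤ (((SB N).filter (fun n => n % Uni.WW w = ν)).card : ℝ) := by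
  classical
  obtain ⟨κ, hκ0, hκ1, H⟩ := hGBL
  refine ⟨κ / 2, by positivity, by linarith, fun w hw => ?_⟩
  obtain ⟨N1, h1⟩ := H w hw
  have hWpos : 0 < Uni.WW w := Uni.WW_pos w
  have hW0 : (0 : ℝ) < Uni.WW w := by exact_mod_cast hWpos
  have hφ0 : (0 : ℝ) < Nat.totient (Uni.WW w) := by exact_mod_cast Nat.totient_pos.2 hWpos
  have tN : Tendsto (fun N : ℕ => (N : ℝ)) atTop atTop := tendsto_natCast_atTop_atTop
  have tL : Tendsto (fun N : ℕ => Real.log (N : ℝ)) atTop atTop := Real.tendsto_log_atTop.comp tN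
  have tp : Tendsto (fun N : ℕ => (N : ℝ) ^ (1 / 16 : ℝ)) atTop atTop :=
    (tendsto_rpow_atTop (by norm_num)).comp tN
  have hδ : 0 < κ / (4 * Nat.totient (Uni.WW w)) := by positivity
  have hsm : ∀ᶠ N : ℕ in atTop, Real.log N ^ (2 : ℝ) ≤ κ / (4 * Nat.totient (Uni.WW w)) * (N : ℝ) ^ (1 / 2 : ℝ) := by
    have h := (isLittleO_log_rpow_rpow_atTop 2 (s := 1 / 2) (by norm_num)).def hδ
    filter_upwards [tN.eventually h, tL.eventually_ge_atTop 0] with N h1 h2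
    rw [Real.norm_of_nonneg (by positivity), Real.norm_of_nonneg (by positivity)] at h1
    exact h1
  obtain ⟨N₀, hN₀⟩ := eventually_atTop.1 (hsm.and ((tL.eventually_ge_atTop 1).and
    ((tp.eventually_ge_atTop ((w : ℝ) + 1)).and (eventually_ge_atTop (max N1 3)))))
  refine ⟨N₀, fun N hN he ν hν hOK => ?_⟩
  obtain ⟨l0, l1, l2, l3⟩ := hN₀ N hN
  have hNN1 : N1 ≤ N := (le_max_left _ _).trans l3
  have hN3 : 3 ≤ N := (le_max_right _ _).trans l3
  have hN1R : (3 : ℝ) ≤ N := by exact_mod_cast hN3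
  have hN0 : (0 : ℝ) < N := by linarith
  have hL0 : 0 < Real.log (N : ℝ) := by linarith
  have hc0 := hOK 0 (by rw [mem_insert]; exact Or.inl rfl)
  have hcs := hOK (sh N 0) (by rw [mem_insert, mem_singleton]; exact Or.inr rfl)
  rw [add_zero] at hc0
  have h2 := h1 N hNN1 he ν hν hc0 (by
    intro p hp hpW hmod
    have hpw := (dvd_WW hp).1 hpW
    have hpN : (p : ℝ) < (N : ℝ) ^ (1 / 16 : ℝ) := by
      have : (p : ℝ) ≤ w := by exact_mod_cast hpw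
      linarith
    apply cop_iff.1 hcs p hp hpw
    push_cast
    rw [sh_zmod hp hpN]
    have h3 := (ZMod.natCast_eq_natCast_iff _ _ _).2 hmod
    rw [h3]
    push_cast
    ring)
  have hGP : (GP N (Uni.WW w) ν).card ≤ ((SB N).filter (fun n => n % Uni.WW w = ν)).card + (Nat.sqrt N + 1) := by
    have h3 : GP N (Uni.WW w) ν ⊆ (SB N).filter (fun n => n % Uni.WW w = ν) ∪ Icc (N - Nat.sqrt N) N := by
      intro n hn
      unfold GP at hn
      rw [mem_filter] at hn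
      rw [mem_union, mem_filter, mem_Icc]
      unfold SB
      rw [mem_filter]
      by_cases h4 : Nat.sqrt N < N - n
      · left
        exact ⟨⟨hn.1, hn.2.2.1, hn.2.2.2.2, h4⟩, hn.2.1⟩
      · right
        have := (mem_Ioc.1 hn.1).2
        omega
    have h4 := (card_le_card h3).trans (card_union_le _ _)
    rw [Nat.card_Icc] at h4
    have h5 := Nat.sqrt_le_self N
    omega
  have hGP' : ((GP N (Uni.WW w) ν).card : ℝ) ≤ (((SB N).filter (fun n => n % Uni.WW w = ν)).card : ℝ) +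
      ((Nat.sqrt N : ℝ) + 1) := by exact_mod_cast hGP
  have hF : Fw N w = N / Real.log N ^ 2 / Nat.totient (Uni.WW w) *
      (((Uni.WW w * N : ℕ) : ℝ) / Nat.totient (Uni.WW w * N)) := rfl
  rw [← hF] at h2
  have hF1 : N / Real.log N ^ 2 / Nat.totient (Uni.WW w) ≤ Fw N w := by
    rw [hF]
    apply le_mul_of_one_le_right (by positivity)
    have h6 : 0 < Uni.WW w * N := Nat.mul_pos hWpos (by omega)
    have h7 : (0 : ℝ) < Nat.totient (Uni.WW w * N) := by exact_mod_cast Nat.totient_pos.2 h6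
    rw [one_le_div h7]
    exact_mod_cast Nat.totient_le _
  have hs : (Nat.sqrt N : ℝ) + 1 ≤ 2 * (N : ℝ) ^ (1 / 2 : ℝ) := by
    have h6 : (Nat.sqrt N : ℝ) ≤ (N : ℝ) ^ (1 / 2 : ℝ) := by
      rw [← Real.sqrt_eq_rpow]
      exact Real.nat_sqrt_le_real_sqrt
    have h7 : (1 : ℝ) ≤ (N : ℝ) ^ (1 / 2 : ℝ) := Real.one_le_rpow (by linarith) (by norm_num)
    linarith
  have hs2 : 2 * (N : ℝ) ^ (1 / 2 : ℝ) ≤ κ / 2 * (N / Real.log N ^ 2 / Nat.totient (Uni.WW w)) := by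
    have e1 : κ / 2 * (N / Real.log N ^ 2 / Nat.totient (Uni.WW w)) =
        (κ * N) / (2 * (Real.log N ^ 2 * Nat.totient (Uni.WW w))) := by field_simp
    rw [e1, le_div_iff₀ (by positivity)]
    have e2 : Real.log (N : ℝ) ^ (2 : ℝ) = Real.log N ^ 2 := by
      rw [← Real.rpow_natCast]; norm_num
    rw [e2] at l0
    have h8 := mul_le_mul_of_nonneg_left l0 (show 0 ≤ 4 * (Nat.totient (Uni.WW w) : ℝ) * (N : ℝ) ^ (1 / 2 : ℝ) by positivity)
    have h9 : (N : ℝ) ^ (1 / 2 : ℝ) * (N : ℝ) ^ (1 / 2 : ℝ) = N := by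
      rw [← Real.rpow_add hN0]; norm_num
    calc 2 * (N : ℝ) ^ (1 / 2 : ℝ) * (2 * (Real.log N ^ 2 * Nat.totient (Uni.WW w))) =
        4 * (Nat.totient (Uni.WW w) : ℝ) * (N : ℝ) ^ (1 / 2 : ℝ) * Real.log N ^ 2 := by ring
      _ ≤ 4 * (Nat.totient (Uni.WW w) : ℝ) * (N : ℝ) ^ (1 / 2 : ℝ) *
          (κ / (4 * Nat.totient (Uni.WW w)) * (N : ℝ) ^ (1 / 2 : ℝ)) := h8
      _ = κ * ((N : ℝ) ^ (1 / 2 : ℝ) * (N : ℝ) ^ (1 / 2 : ℝ)) := by field_simp
      _ = κ * N := by rw [h9]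
  have h10 : κ / 2 * (N / Real.log N ^ 2 / Nat.totient (Uni.WW w)) ≤ κ / 2 * Fw N w :=
    mul_le_mul_of_nonneg_left hF1 (by positivity)
  linarith

end Pool.Agent.L0h43.TF
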