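import Pool.Agent.L0h43.TF.Stm

/-!
# The expected numbers with truncated products
-/

set_option autoImplicit false

namespace Pool.Agent.L0h43.TF

open Finset Filter Topology Pool.Agent.H387R2
open Pool.Agent.L0h43.TA Pool.Agent.L0h43.TB Pool.Agent.L0h43.TD
open Pool.Agent.H386R2.HL

lemma prod_loc_ge (T : Finset ℕ) {y : ℕ} (hy : 1 ≤ y) (hTy : T.card ≤ y) (S : Finset ℕ)
    (hS : ∀ p ∈ S, p.Prime ∧ y < p) : 1 - (T.card : ℝ) ^ 2 / y ≤ ∏ p ∈ S, Uni.locT T p := by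
  have hr : ∀ p ∈ S, T.card ≤ p := by
    intro p hp
    have := (hS p hp).2
    omega
  have hsum : ∑ p ∈ S, (T.card : ℝ) ^ 2 * ((p : ℝ) ^ 2)⁻¹ ≤ (T.card : ℝ) ^ 2 / y := by
    rw [← mul_sum]
    have h2 := Pool.Agent.Helper22K9.Trp.sum_inv_sq_gt hy S (fun p hp => (hS p hp).2)
    calc (T.card : ℝ) ^ 2 * ∑ p ∈ S, ((p : ℝ) ^ 2)⁻¹ ≤ (T.card : ℝ) ^ 2 * (1 / y) :=
          mul_le_mul_of_nonneg_left h2 (by positivity)
      _ = _ := by rw [mul_one_div]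
  have hle : ∀ p ∈ S, (T.card : ℝ) ^ 2 * ((p : ℝ) ^ 2)⁻¹ ≤ 1 := by
    intro p hp
    have h3 : (T.card : ℝ) ≤ (p : ℝ) := by exact_mod_cast hr p hp
    have h4 : (0 : ℝ) < (p : ℝ) := by exact_mod_cast (hS p hp).1.pos
    rw [← div_eq_mul_inv, div_le_one (by positivity)]
    exact pow_le_pow_left₀ (Nat.cast_nonneg _) h3 2
  have h2 := Pool.Agent.Helper22K9.Trp.prod_ge S (fun p => (T.card : ℝ) ^ 2 * ((p : ℝ) ^ 2)⁻¹)
    (fun p _ => by positivity) hle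
  have h3 : ∏ p ∈ S, (1 - (T.card : ℝ) ^ 2 * ((p : ℝ) ^ 2)⁻¹) ≤ ∏ p ∈ S, Uni.locT T p := by
    apply Finset.prod_le_prod
    · intro p hp
      linarith [hle p hp]
    · intro p hp
      exact Pool.Agent.Helper22K9.Trp.locT_ge T (hS p hp).1.two_le (hr p hp)
  linarith

/-- the product of the local factors of `T` over the primes between `w` and `2 ^ 2 ^ J` -/
noncomputable def LT (w J : ℕ) (T : Finset ℕ) : ℝ := ∏ p ∈ Pw w J, Uni.locT T p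

lemma LT_nonneg (w J : ℕ) (T : Finset ℕ) : 0 ≤ LT w J T :=
  prod_nonneg fun _ hp => Pool.Agent.Helper22K9.Trp.locT_nonneg T (Pw_prime hp)

lemma Vw_LT (w J : ℕ) (T : Finset ℕ) : Vw w J T = V1w w J ^ T.card * LT w J T := by
  unfold Vw V1w LT
  rw [← prod_pow, ← prod_mul_distrib]
  apply prod_congr rfl
  intro p hp
  unfold Uni.locT
  have := fac_pos (Pw_prime hp)
  field_simp

lemma LT_ge {w J : ℕ} (T : Finset ℕ) (hw1 : 1 ≤ w) (hT : 2 * T.card ^ 2 ≤ w) : 1 / 2 ≤ LT w J T := by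
  have hw0 : (0 : ℝ) < w := by exact_mod_cast hw1
  have hTw : T.card ≤ w := by nlinarith [Nat.le_self_pow two_ne_zero T.card]
  have h1 := prod_loc_ge T hw1 hTw (Pw w J) (fun p hp => ⟨Pw_prime hp, Pw_gt hp⟩)
  have h2 : (T.card : ℝ) ^ 2 / w ≤ 1 / 2 := by
    rw [div_le_div_iff₀ hw0 (by norm_num)]
    have : (2 * (T.card : ℝ) ^ 2) ≤ w := by exact_mod_cast hT
    linarith
  unfold LT
  linarith

lemma LT_mono {w J J' : ℕ} (T : Finset ℕ) (hJ : J ≤ J') (hz : 2 * T.card ^ 2 + 1 < 2 ^ 2 ^ J) :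
    LT w J T ≤ 2 * LT w J' T := by
  classical
  have hzz : 2 ^ 2 ^ J ≤ 2 ^ 2 ^ J' := Nat.pow_le_pow_right (by norm_num) (Nat.pow_le_pow_right (by norm_num) hJ)
  have hsub : Pw w J ⊆ Pw w J' := by
    intro p hp
    unfold Pw Ps at hp ⊢
    rw [mem_filter, mem_filter, mem_range] at hp ⊢
    exact ⟨⟨by omega, hp.1.2⟩, hp.2⟩
  have h1 : LT w J' T = (∏ p ∈ Pw w J' \ Pw w J, Uni.locT T p) * LT w J T := by
    unfold LT
    rw [prod_sdiff hsub]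
  have hS : ∀ p ∈ Pw w J' \ Pw w J, p.Prime ∧ 2 ^ 2 ^ J - 1 < p := by
    intro p hp
    rw [Finset.mem_sdiff] at hp
    refine ⟨Pw_prime hp.1, ?_⟩
    by_contra h
    apply hp.2
    unfold Pw Ps
    rw [mem_filter, mem_filter, mem_range]
    exact ⟨⟨by omega, Pw_prime hp.1⟩, Pw_gt hp.1⟩
  have hy1 : 1 ≤ 2 ^ 2 ^ J - 1 := by omega
  have hTy : T.card ≤ 2 ^ 2 ^ J - 1 := by
    have : T.card ≤ T.card ^ 2 := Nat.le_self_pow two_ne_zero _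
    omega
  have h2 := prod_loc_ge T hy1 hTy _ hS
  obtain ⟨y, hy⟩ : ∃ y, y = 2 ^ 2 ^ J - 1 := ⟨_, rfl⟩
  rw [← hy] at h2 hy1
  have hy0 : (0 : ℝ) < y := by exact_mod_cast hy1
  have h3 : (T.card : ℝ) ^ 2 / y ≤ 1 / 2 := by
    rw [div_le_div_iff₀ hy0 (by norm_num)]
    have : 2 * T.card ^ 2 ≤ y := by omega
    have : (2 * (T.card : ℝ) ^ 2) ≤ y := by exact_mod_cast this
    linarith
  have h4 := LT_nonneg w J T
  rw [h1]
  nlinarith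

/-- the level of the truncated products -/
noncomputable def J0 (N : ℕ) : ℕ := Nat.log 2 (Nat.log 2 ⌊(N : ℝ) ^ (1 / 256 : ℝ)⌋₊)

lemma le_J0 {N J : ℕ} (h : (2 : ℝ) ^ 2 ^ J ≤ (N : ℝ) ^ (1 / 256 : ℝ)) : J ≤ J0 N := by
  have h1 : 2 ^ 2 ^ J ≤ ⌊(N : ℝ) ^ (1 / 256 : ℝ)⌋₊ := by
    apply Nat.le_floor
    push_cast
    exact h
  have h2 : 2 ^ J ≤ Nat.log 2 ⌊(N : ℝ) ^ (1 / 256 : ℝ)⌋₊ := Nat.le_log_of_pow_le (by norm_num) h1
  exact Nat.le_log_of_pow_le (by norm_num) h2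

lemma J0_le {N : ℕ} (h : (2 : ℝ) ≤ (N : ℝ) ^ (1 / 256 : ℝ)) : (2 : ℝ) ^ 2 ^ (J0 N) ≤ (N : ℝ) ^ (1 / 256 : ℝ) := by
  have h0 : 2 ≤ ⌊(N : ℝ) ^ (1 / 256 : ℝ)⌋₊ := Nat.le_floor (by exact_mod_cast h)
  have h1 : Nat.log 2 ⌊(N : ℝ) ^ (1 / 256 : ℝ)⌋₊ ≠ 0 := by
    have := Nat.log_pos (b := 2) (by norm_num) h0
    omega
  have h2 : 2 ^ J0 N ≤ Nat.log 2 ⌊(N : ℝ) ^ (1 / 256 : ℝ)⌋₊ := Nat.pow_log_le_self 2 h1
  have h3 : 2 ^ 2 ^ J0 N ≤ ⌊(N : ℝ) ^ (1 / 256 : ℝ)⌋₊ :=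
    (Nat.pow_le_pow_right (by norm_num) h2).trans (Nat.pow_log_le_self 2 (by omega))
  have h4 : ((2 ^ 2 ^ J0 N : ℕ) : ℝ) ≤ (N : ℝ) ^ (1 / 256 : ℝ) :=
    (show ((2 ^ 2 ^ J0 N : ℕ) : ℝ) ≤ (⌊(N : ℝ) ^ (1 / 256 : ℝ)⌋₊ : ℝ) by exact_mod_cast h3).trans
      (Nat.floor_le (by positivity))
  push_cast at h4
  exact h4

/-- the local part of the expected number -/
noncomputable def Xo (N w : ℕ) (T : Finset ℕ) : ℝ :=
  1 / (Uni.WW w : ℝ) * ((Uni.WW w : ℝ) / Nat.totient (Uni.WW w)) ^ T.card * LT w (J0 N) T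

/-- the expected number, with truncated products -/
noncomputable def Eo (N w : ℕ) (T : Finset ℕ) : ℝ := N / Real.log N ^ T.card * Xo N w T

lemma Xo_nonneg (N w : ℕ) (T : Finset ℕ) : 0 ≤ Xo N w T := by
  unfold Xo
  have := LT_nonneg w (J0 N) T
  positivity

lemma Eo_nonneg {N w : ℕ} {T : Finset ℕ} (hN : 1 ≤ N) : 0 ≤ Eo N w T := by
  unfold Eo
  have h1 : 0 ≤ Real.log (N : ℝ) := Real.log_nonneg (by exact_mod_cast hN)
  have := Xo_nonneg N w T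
  positivity

lemma Xo_low {N w : ℕ} (T : Finset ℕ) (hw1 : 1 ≤ w) (hT : 2 * T.card ^ 2 ≤ w) :
    1 / (2 * (Uni.WW w : ℝ)) ≤ Xo N w T := by
  have hW : (0 : ℝ) < Uni.WW w := by exact_mod_cast (Uni.WW_pos w)
  have hφ : (0 : ℝ) < Nat.totient (Uni.WW w) := by exact_mod_cast Nat.totient_pos.2 (Uni.WW_pos w)
  have h1 := LT_ge (J := J0 N) T hw1 hT
  have h2 : (1 : ℝ) ≤ ((Uni.WW w : ℝ) / Nat.totient (Uni.WW w)) ^ T.card := by
    apply one_le_pow₀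
    rw [one_le_div hφ]
    exact_mod_cast Nat.totient_le _
  unfold Xo
  have h3 : (1 : ℝ) / (2 * (Uni.WW w : ℝ)) = 1 / Uni.WW w * 1 * (1 / 2) := by field_simp
  rw [h3]
  apply mul_le_mul _ h1 (by norm_num) (by positivity)
  exact mul_le_mul_of_nonneg_left h2 (by positivity)

lemma rho_leo {N w J : ℕ} (T : Finset ℕ) (hJ : J ≤ J0 N) (hz : 2 * T.card ^ 2 + 1 < 2 ^ 2 ^ J)
    (hw : w < 2 ^ 2 ^ J) : 1 / (Uni.WW w : ℝ) * Vw w J T ≤ 2 * V1 J ^ T.card * Xo N w T := by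
  have hW : (0 : ℝ) < Uni.WW w := by exact_mod_cast (Uni.WW_pos w)
  have hφ : (0 : ℝ) < Nat.totient (Uni.WW w) := by exact_mod_cast Nat.totient_pos.2 (Uni.WW_pos w)
  have h1 := LT_mono (w := w) T hJ hz
  have h2 := V1w_pos w J
  rw [Vw_LT]
  have e : 2 * V1 J ^ T.card * Xo N w T = 1 / (Uni.WW w : ℝ) * (V1w w J ^ T.card * (2 * LT w (J0 N) T)) := by
    unfold Xo
    rw [V1_split hw, mul_pow, div_pow, div_pow]
    field_simp
  rw [e]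
  apply mul_le_mul_of_nonneg_left _ (by positivity)
  exact mul_le_mul_of_nonneg_left h1 (by positivity)

/-- the expected numbers with one more shift, on average -/
lemma Eo_total {N w ν u H r : ℕ} {T R : Finset ℕ} (hN : 3 ≤ N) (hR : R ⊆ Jv (Uni.WW w) ν u H)
    (hRT : Disjoint R T) (hr : T.card ≤ r) {c : ℝ} (hm : ∀ t ∈ T,
      ∑ h ∈ (Jv (Uni.WW w) ν u H).filter (fun h => h ≠ t), (mm w (J0 N) (2 * r) (ds h t) - 1) ≤ c) :
    ∑ h ∈ R, Eo N w (insert h T) ≤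
      Eo N w T / Real.log N * ((Uni.WW w : ℝ) / Nat.totient (Uni.WW w) * (R.card + T.card * c)) := by
  have hW : (0 : ℝ) < Uni.WW w := by exact_mod_cast (Uni.WW_pos w)
  have hφ : (0 : ℝ) < Nat.totient (Uni.WW w) := by exact_mod_cast Nat.totient_pos.2 (Uni.WW_pos w)
  have hN3 : (3 : ℝ) ≤ N := by exact_mod_cast hN
  have hL : 0 < Real.log (N : ℝ) := Real.log_pos (by linarith)
  have hV := V1w_pos w (J0 N)
  have h1 := sum_up1 (J := J0 N) (w := w) hR hRT hr hm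
  have e1 : ∀ h ∈ R, Eo N w (insert h T) = (N / Real.log N ^ (T.card + 1) * (1 / (Uni.WW w : ℝ) *
      ((Uni.WW w : ℝ) / Nat.totient (Uni.WW w)) ^ (T.card + 1)) / V1w w (J0 N) ^ (T.card + 1)) *
        Vw w (J0 N) (insert h T) := by
    intro h hh
    have hc : (insert h T).card = T.card + 1 := card_insert_of_notMem (disjoint_left.1 hRT hh)
    unfold Eo Xo
    rw [Vw_LT, hc]
    field_simp
  rw [sum_congr rfl e1, ← mul_sum]
  refine (mul_le_mul_of_nonneg_left h1 (by positivity)).trans (le_of_eq ?_)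
  unfold Eo Xo
  rw [Vw_LT, pow_succ, pow_succ, pow_succ]
  field_simp

end Pool.Agent.L0h43.TF
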