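import Pool.Agent.L0h43.TF.MTMG
import Pool.Agent.L0h43.TF.Abs0
import Pool.Agent.L0h43.TE.Fam

/-!
# Almost primes next to the elements of a set, general shifts: the induction applies
-/

set_option autoImplicit false

namespace Pool.Agent.L0h43.TF

open Finset Filter Topology Pool.Agent.H387R2
open Pool.Agent.L0h43.TA Pool.Agent.L0h43.TB Pool.Agent.L0h43.TD
open Pool.Agent.H386R2.HL
open Pool.Agent.L0h43.TE (FS FS_ins FS_empty FS_sub sdiff_un)

theorem famG (hMAV : S_MAV) : ∃ c0 : ℝ, 0 < c0 ∧ c0 ≤ 1 ∧ ∀ (b : ℕ) (η : ℝ), 0 < η → η ≤ 1 → ∀ k : ℕ,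
    ∃ K : ℝ, 1 ≤ K ∧ ∃ w0 : ℕ, ∀ w : ℕ, w0 ≤ w → ∀ A : ℝ, 0 ≤ A → ∃ N₀ : ℕ, ∀ N : ℕ, N₀ ≤ N →
      ∀ B : Finset ℕ, B.card = b → (∀ t ∈ B, Gd N A t) →
      ∀ ν : ℕ, ν < Uni.WW w → OK (Uni.WW w) ν B →
      ∀ u H : ℕ, K * Real.log N ≤ H → ((u + H : ℕ) : ℝ) ≤ Real.log N ^ A → ∀ S ⊆ QS N (Uni.WW w) ν B,
      Fam0 (Jv (Uni.WW w) ν u H \ B) (fun D => Eo N w (B ∪ D)) (fun D => ((FS N S D).card : ℝ)) k
        c0 ((Uni.WW w : ℝ) / Nat.totient (Uni.WW w) / Real.log N) (H / Real.log N) η := by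
  classical
  obtain ⟨c0, hc0, hc1, HMT⟩ := MTLs hMAV
  refine ⟨c0, hc0, hc1, fun b η hη hη1 k => ?_⟩
  have tL : Tendsto (fun N : ℕ => Real.log (N : ℝ)) atTop atTop :=
    Real.tendsto_log_atTop.comp tendsto_natCast_atTop_atTop
  have tp : Tendsto (fun N : ℕ => (N : ℝ) ^ (1 / 256 : ℝ)) atTop atTop :=
    (tendsto_rpow_atTop (by norm_num)).comp tendsto_natCast_atTop_atTop
  induction k with
  | zero =>
    refine ⟨1, le_rfl, 0, fun w _ A hA => ?_⟩
    have hWpos : 0 < Uni.WW w := Uni.WW_pos w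
    obtain ⟨N₀, hN₀⟩ := eventually_atTop.1 ((tL.eventually_ge_atTop (max 1 (Uni.WW w : ℝ))).and
      (eventually_ge_atTop 3))
    refine ⟨N₀, fun N hN B hB hBA ν hν hOK u H hKH hHA S hS => ?_⟩
    obtain ⟨l1, l2⟩ := hN₀ N hN
    have hL1 : 1 ≤ Real.log N := (le_max_left _ _).trans l1
    have hLW : (Uni.WW w : ℝ) ≤ Real.log N := (le_max_right _ _).trans l1
    have hN1 : 1 ≤ N := by omega
    obtain ⟨W, hW⟩ : ∃ W, W = Uni.WW w := ⟨_, rfl⟩
    rw [← hW] at hWpos hLW ⊢
    have hW0 : (0 : ℝ) < W := by exact_mod_cast hWpos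
    have hφ0 : (0 : ℝ) < Nat.totient W := by exact_mod_cast Nat.totient_pos.2 hWpos
    set L := Real.log (N : ℝ) with hL
    have hL0 : 0 < L := by linarith
    rw [one_mul] at hKH
    have hH0 : (0 : ℝ) < H := by linarith
    refine ⟨hc0, hc1, by positivity, by positivity, hη.le, hη1, fun D => Eo_nonneg hN1, fun D => Nat.cast_nonneg _,
      ?_, fun D _ h => absurd h (Nat.not_lt_zero _), fun D _ h => absurd h (Nat.not_lt_zero _)⟩
    intro D _
    rw [sdiff_un]
    have h1 := Jv_card_le (ν := ν) (u := u) (H := H) hWpos (B ∪ D)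
    calc (W : ℝ) / Nat.totient W / L * ((Jv W ν u H \ (B ∪ D)).card : ℝ) =
        ((W : ℝ) / Nat.totient W * ((Jv W ν u H \ (B ∪ D)).card : ℝ)) / L := by ring
      _ ≤ (2 * H) / L := by
          apply div_le_div_of_nonneg_right _ hL0.le
          linarith
      _ = _ := by ring
  | succ k ih =>
    obtain ⟨K1, hK1, w1, H1⟩ := ih
    obtain ⟨K2, hK2, w2, H2⟩ := HMT (b + k) η hη hη1
    obtain ⟨δ, hδ⟩ : ∃ δ : ℝ, δ = 1 / ((b + k : ℕ) + 1) := ⟨_, rfl⟩
    have hδ0 : 0 < δ := by rw [hδ]; positivity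
    have hδ1 : ((b + k : ℕ) : ℝ) * δ ≤ 1 := by
      rw [hδ, mul_one_div, div_le_one (by positivity)]
      linarith
    obtain ⟨w3, hw31, H3⟩ := m_avgG hMAV (2 * (b + k)) δ hδ0
    refine ⟨max K1 K2, hK1.trans (le_max_left _ _), max w1 (max w2 w3), fun w hw A hA => ?_⟩
    have hww1 : w1 ≤ w := (le_max_left _ _).trans hw
    have hww2 : w2 ≤ w := ((le_max_left _ _).trans (le_max_right _ _)).trans hw
    have hww3 : w3 ≤ w := ((le_max_right _ _).trans (le_max_right _ _)).trans hw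
    obtain ⟨N1, hN1⟩ := H1 w hww1 A hA
    obtain ⟨N2, hN2⟩ := H2 w hww2 A hA
    obtain ⟨N3, hN3⟩ := H3 w hww3 (Uni.WW w) (Uni.WW_pos w) (fun p hp => dvd_WW hp) A hA
    obtain ⟨N₀, hN₀⟩ := eventually_atTop.1 ((tL.eventually_ge_atTop (max 1 (Uni.WW w : ℝ))).and
      ((tp.eventually_ge_atTop 2).and (eventually_ge_atTop (max (max N1 N2) (max N3 3)))))
    refine ⟨N₀, fun N hN B hB hBA ν hν hOK u H hKH hHA S hS => ?_⟩
    obtain ⟨l1, l3, l2⟩ := hN₀ N hN
    have hL1 : 1 ≤ Real.log N := (le_max_left _ _).trans l1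
    have hLW : (Uni.WW w : ℝ) ≤ Real.log N := (le_max_right _ _).trans l1
    have hNN1 : N1 ≤ N := ((le_max_left _ _).trans (le_max_left _ _)).trans l2
    have hNN2 : N2 ≤ N := ((le_max_right _ _).trans (le_max_left _ _)).trans l2
    have hNN3 : N3 ≤ N := ((le_max_left _ _).trans (le_max_right _ _)).trans l2
    have hNge3 : 3 ≤ N := ((le_max_right _ _).trans (le_max_right _ _)).trans l2
    have hN1' : 1 ≤ N := by omega
    have hL0 : 0 < Real.log (N : ℝ) := by linarith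
    have hKH1 : K1 * Real.log N ≤ H := (mul_le_mul_of_nonneg_right (le_max_left _ _) hL0.le).trans hKH
    have hKH2 : K2 * Real.log N ≤ H := (mul_le_mul_of_nonneg_right (le_max_right _ _) hL0.le).trans hKH
    have hLH : Real.log N ≤ H := (le_mul_of_one_le_left hL0.le hK1).trans hKH1
    have hHpos : (0 : ℝ) < H := by linarith
    have hfam := hN1 N hNN1 B hB hBA ν hν hOK u H hKH1 hHA S hS
    have hJ0 := J0_le l3
    obtain ⟨W, hW⟩ : ∃ W, W = Uni.WW w := ⟨_, rfl⟩
    rw [← hW] at hfam hν hOK hS hLW hN3 ⊢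
    have hWpos : 0 < W := by rw [hW]; exact Uni.WW_pos w
    have hW0 : (0 : ℝ) < W := by exact_mod_cast hWpos
    have hφ0 : (0 : ℝ) < Nat.totient W := by exact_mod_cast Nat.totient_pos.2 hWpos
    have hDprop : ∀ D ⊆ Jv W ν u H \ B, D.card = k → (B ∪ D).card = b + k ∧
        (∀ t ∈ B ∪ D, Gd N A t) ∧ OK W ν (B ∪ D) := by
      intro D hD hDk
      refine ⟨?_, ?_, ?_⟩
      · rw [card_union_of_disjoint, hB, hDk]
        rw [disjoint_left]
        intro a ha hb
        have := hD hb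
        rw [Finset.mem_sdiff] at this
        exact this.2 ha
      · intro t ht
        rcases mem_union.1 ht with ht | ht
        · exact hBA t ht
        · left
          have h1 := hD ht
          rw [Finset.mem_sdiff] at h1
          unfold Jv at h1
          rw [mem_filter, mem_Ioc] at h1
          have h2 : (t : ℝ) ≤ ((u + H : ℕ) : ℝ) := by exact_mod_cast h1.1.1.2
          exact h2.trans hHA
      · intro t ht
        rcases mem_union.1 ht with ht | ht
        · exact hOK t ht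
        · have h1 := hD ht
          rw [Finset.mem_sdiff] at h1
          unfold Jv at h1
          rw [mem_filter] at h1
          exact h1.1.2
    apply Fam0.succ hfam
    · intro D hD hDk
      obtain ⟨p1, p2, p3⟩ := hDprop D hD hDk
      rw [sdiff_un]
      have h1 := Eo_total (N := N) (w := w) (ν := ν) (u := u) (H := H) (r := b + k) (T := B ∪ D)
        (R := Jv W ν u H \ (B ∪ D)) hNge3 (by rw [← hW]; exact sdiff_subset) sdiff_disjoint p1.le
        (c := δ * ((Nat.totient W : ℝ) / W * H)) (fun t ht => by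
          rw [← hW]
          exact hN3 N hNN3 H hLH (J0 N) ν u t hJ0 hHA (p2 t ht))
      rw [← hW, p1] at h1
      have h2 : ∀ x ∈ Jv W ν u H \ (B ∪ D), Eo N w (B ∪ insert x D) = Eo N w (insert x (B ∪ D)) := by
        intro x _
        rw [union_insert]
      rw [sum_congr rfl h2]
      refine h1.trans ?_
      have hE := Eo_nonneg (N := N) (w := w) (T := B ∪ D) hN1'
      have h3 := Jv_card_le (ν := ν) (u := u) (H := H) hWpos (B ∪ D)
      have h4 : (W : ℝ) / Nat.totient W * (((Jv W ν u H \ (B ∪ D)).card : ℝ) +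
          ((b + k : ℕ) : ℝ) * (δ * ((Nat.totient W : ℝ) / W * H))) ≤ 3 * H := by
        have e : (W : ℝ) / Nat.totient W * (((Jv W ν u H \ (B ∪ D)).card : ℝ) +
          ((b + k : ℕ) : ℝ) * (δ * ((Nat.totient W : ℝ) / W * H))) =
          (W : ℝ) / Nat.totient W * ((Jv W ν u H \ (B ∪ D)).card : ℝ) + ((b + k : ℕ) : ℝ) * δ * H := by
          field_simp
        rw [e]
        have h5 : ((b + k : ℕ) : ℝ) * δ * H ≤ 1 * H := mul_le_mul_of_nonneg_right hδ1 hHpos.le
        linarith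
      calc Eo N w (B ∪ D) / Real.log N * ((W : ℝ) / Nat.totient W * (((Jv W ν u H \ (B ∪ D)).card : ℝ) +
          ((b + k : ℕ) : ℝ) * (δ * ((Nat.totient W : ℝ) / W * H)))) ≤ Eo N w (B ∪ D) / Real.log N * (3 * H) :=
            mul_le_mul_of_nonneg_left h4 (by positivity)
        _ = _ := by ring
    · intro D hD hDk g hg0 hg1
      obtain ⟨p1, p2, p3⟩ := hDprop D hD hDk
      rw [sdiff_un]
      have h1 := hN2 N hNN2 (B ∪ D) p1 p2 ν (by rw [← hW]; exact hν) (by rw [← hW]; exact p3) u H hKH2 hHA g hg0 hg1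
        (FS N S D) (by rw [← hW]; exact FS_sub hN1' hS D)
      rw [← hW] at h1
      simp only [FS_ins] at h1
      refine le_trans (le_of_eq ?_) h1
      ring

end Pool.Agent.L0h43.TF
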