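import Pool.Agent.L0h43.TF.MTLG

/-!
# One more almost prime: general shifts, subsets
-/

set_option autoImplicit false

namespace Pool.Agent.L0h43.TF

open Finset Filter Topology Pool.Agent.H387R2
open Pool.Agent.L0h43.TA Pool.Agent.L0h43.TB Pool.Agent.L0h43.TD
open Pool.Agent.H386R2.HL

open Classical in
/-- **one more almost prime in a window, for every set of rough tuples in a class modulo `W`** -/
theorem MTLs (hMAV : S_MAV) : ∃ c0 : ℝ, 0 < c0 ∧ c0 ≤ 1 ∧ ∀ (j : ℕ) (ε : ℝ), 0 < ε → ε ≤ 1 →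
    ∃ K : ℝ, 1 ≤ K ∧ ∃ w0 : ℕ, ∀ w : ℕ, w0 ≤ w → ∀ A : ℝ, 0 ≤ A → ∃ N₀ : ℕ, ∀ N : ℕ, N₀ ≤ N →
      ∀ T : Finset ℕ, T.card = j →
      (∀ t ∈ T, Gd N A t) → ∀ ν : ℕ, ν < Uni.WW w → OK (Uni.WW w) ν T →
      ∀ u H : ℕ, K * Real.log N ≤ H → ((u + H : ℕ) : ℝ) ≤ Real.log N ^ A → ∀ g : ℕ → ℝ,
      (∀ h, 0 ≤ g h) → (∀ h, g h ≤ 1) → ∀ S' ⊆ QS N (Uni.WW w) ν T,
        c0 * ((Uni.WW w : ℝ) / Nat.totient (Uni.WW w)) * (∑ h ∈ Jv (Uni.WW w) ν u H \ T, g h) / Real.log N *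
          S'.card - ε * (H / Real.log N) * Eo N w T ≤
        ∑ h ∈ Jv (Uni.WW w) ν u H \ T, g h * ((S'.filter (fun n => AP N (n + h))).card : ℝ) := by
  obtain ⟨c0, hc0, H0⟩ := MTLvG hMAV
  refine ⟨min c0 1, lt_min hc0 one_pos, min_le_right _ _, fun j ε hε hε1 => ?_⟩
  obtain ⟨K, hK, w0, H1⟩ := H0 j (ε / 2) (by positivity) (by linarith)
  refine ⟨K, hK, max w0 (2 * j ^ 2 + 1), fun w hw A hA => ?_⟩
  have hww0 : w0 ≤ w := (le_max_left _ _).trans hw
  have hwj : 2 * j ^ 2 + 1 ≤ w := (le_max_right _ _).trans hw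
  obtain ⟨N1, hN1⟩ := H1 w hww0 A hA
  obtain ⟨W, hW⟩ : ∃ W, W = Uni.WW w := ⟨_, rfl⟩
  have hWpos : 0 < W := by rw [hW]; exact Uni.WW_pos w
  have hW0 : (0 : ℝ) < W := by exact_mod_cast hWpos
  have tN : Tendsto (fun N : ℕ => (N : ℝ)) atTop atTop := tendsto_natCast_atTop_atTop
  have tL : Tendsto (fun N : ℕ => Real.log (N : ℝ)) atTop atTop := Real.tendsto_log_atTop.comp tN
  have tp : Tendsto (fun N : ℕ => (N : ℝ) ^ (3 / 25 : ℝ)) atTop atTop := (tendsto_rpow_atTop (by norm_num)).comp tN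
  obtain ⟨cE, hcE⟩ : ∃ cE : ℝ, cE = 12 * W / ε := ⟨_, rfl⟩
  have hcE0 : 0 < cE := by rw [hcE]; positivity
  have hsmall : ∀ᶠ N : ℕ in atTop, cE * Real.log N ^ (j + 1) ≤ (N : ℝ) ^ (3 / 25 : ℝ) := by
    have h := (isLittleO_log_rpow_rpow_atTop ((j + 1 : ℕ) : ℝ) (s := 3 / 25) (by positivity)).def
      (show 0 < 1 / cE by positivity)
    filter_upwards [tN.eventually h, tL.eventually_ge_atTop 0, eventually_ge_atTop 1] with N h1 h2 h3
    rw [Real.norm_of_nonneg (by positivity), Real.norm_of_nonneg (by positivity)] at h1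
    rw [Real.rpow_natCast] at h1
    calc cE * Real.log N ^ (j + 1) ≤ cE * (1 / cE * (N : ℝ) ^ (3 / 25 : ℝ)) :=
          mul_le_mul_of_nonneg_left h1 hcE0.le
      _ = _ := by field_simp
  obtain ⟨N₀, hN₀⟩ := eventually_atTop.1 (hsmall.and ((tL.eventually_ge_atTop 1).and
    ((tp.eventually_ge_atTop 4).and (eventually_ge_atTop (max N1 1)))))
  refine ⟨N₀, fun N hN T hTj hTA ν hν hOK u H hKH hHA g hg0 hg1 S' hS' => ?_⟩
  obtain ⟨l1, l2, l3, l4⟩ := hN₀ N hN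
  have hNN1 : N1 ≤ N := (le_max_left _ _).trans l4
  have hN1' : 1 ≤ N := (le_max_right _ _).trans l4
  have hN0 : (0 : ℝ) < N := by exact_mod_cast hN1'
  obtain ⟨m, y, hm, hy, hv⟩ := hN1 N hNN1 T hTj hTA ν hν hOK u H hKH hHA g hg0 hg1
  have hgT := gT_pos hν hOK
  have hlow := Xo_low (N := N) (w := w) T (by omega) (by rw [hTj]; omega)
  rw [← hW] at hm hy hv hν hOK hgT hlow hS' ⊢
  set L := Real.log (N : ℝ) with hL
  have hL0 : 0 < L := by linarith
  obtain ⟨R, hR⟩ : ∃ R, R = Jv W ν u H \ T := ⟨_, rfl⟩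
  rw [← hR] at hm hy ⊢
  have hRH : (R.card : ℝ) ≤ H := by
    have h1 : R ⊆ Ioc u (u + H) := by
      rw [hR]
      refine sdiff_subset.trans ?_
      unfold Jv
      exact filter_subset _ _
    have h2 := card_le_card h1
    rw [Nat.card_Ioc] at h2
    have h3 : R.card ≤ H := by omega
    exact_mod_cast h3
  have hG0 : 0 ≤ ∑ h ∈ R, g h := sum_nonneg fun h _ => hg0 h
  have hm' : min c0 1 * ((W : ℝ) / Nat.totient W) * (∑ h ∈ R, g h) / L ≤ m := by
    refine le_trans ?_ hm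
    apply div_le_div_of_nonneg_right _ hL0.le
    apply mul_le_mul_of_nonneg_right _ hG0
    exact mul_le_mul_of_nonneg_right (min_le_left _ _) (by positivity)
  have hS'I : ∀ n ∈ S', n ∈ Ioc 0 N := by
    intro n hn
    have := hS' hn
    unfold QS at this
    rw [mem_filter, mem_Ioc] at this
    rw [mem_Ioc]
    omega
  -- lower bound
  have h1 : m * S'.card - ε / 2 * (Eo N w T * (H / L)) ≤ ∑ n ∈ S', y n := by
    have e : ∑ n ∈ S', y n = m * S'.card + ∑ n ∈ S', (y n - m) := by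
      rw [sum_sub_distrib, sum_const, nsmul_eq_mul]; ring
    have h2 : -(∑ n ∈ S', |y n - m|) ≤ ∑ n ∈ S', (y n - m) := by
      rw [← sum_neg_distrib]
      exact sum_le_sum fun n _ => neg_abs_le _
    have h3 : ∑ n ∈ S', |y n - m| ≤ ∑ n ∈ QS N W ν T, |y n - m| :=
      sum_le_sum_of_subset_of_nonneg hS' (fun n _ _ => abs_nonneg _)
    rw [e]
    linarith
  -- upper bound
  have h2 : ∑ n ∈ S', y n ≤ ∑ h ∈ R, g h * ((S'.filter (fun n => AP N (n + h))).card : ℝ) +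
      H * (3 * (N : ℝ) ^ (22 / 25 : ℝ)) := by
    have h3 : ∑ n ∈ S', y n ≤ ∑ n ∈ S', ∑ h ∈ R,
        g h * ((if AP N (n + h) then (1 : ℝ) else 0) + (if SQ N (n + h) then (1 : ℝ) else 0)) :=
      sum_le_sum fun n hn => hy n (hS'I n hn)
    refine h3.trans ?_
    rw [sum_comm]
    have h4 : ∀ h ∈ R, ∑ n ∈ S', g h * ((if AP N (n + h) then (1 : ℝ) else 0) +
        (if SQ N (n + h) then (1 : ℝ) else 0)) ≤
        g h * ((S'.filter (fun n => AP N (n + h))).card : ℝ) + 3 * (N : ℝ) ^ (22 / 25 : ℝ) := by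
      intro h _
      rw [← mul_sum, sum_add_distrib, sum_boole, sum_boole, mul_add]
      apply add_le_add le_rfl
      have h5 : ((S'.filter (fun n => SQ N (n + h))).card : ℝ) ≤ 3 * (N : ℝ) ^ (22 / 25 : ℝ) := by
        refine le_trans ?_ (sq_few hN1' l3 h)
        have : S'.filter (fun n => SQ N (n + h)) ⊆ (Ioc 0 N).filter (fun n => SQ N (n + h)) := by
          intro n hn
          rw [mem_filter] at hn ⊢
          exact ⟨hS'I n hn.1, hn.2⟩
        exact_mod_cast card_le_card this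
      calc g h * ((S'.filter (fun n => SQ N (n + h))).card : ℝ) ≤ 1 * ((S'.filter (fun n => SQ N (n + h))).card : ℝ) :=
            mul_le_mul_of_nonneg_right (hg1 h) (Nat.cast_nonneg _)
        _ ≤ _ := by rw [one_mul]; exact h5
    refine (sum_le_sum h4).trans ?_
    rw [sum_add_distrib, sum_const, nsmul_eq_mul]
    apply add_le_add le_rfl
    exact mul_le_mul_of_nonneg_right hRH (by positivity)
  -- the squares
  have h3 : (H : ℝ) * (3 * (N : ℝ) ^ (22 / 25 : ℝ)) ≤ ε / 2 * (Eo N w T * (H / L)) := by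
    have h4 : N / L ^ j * (1 / (2 * (W : ℝ))) ≤ Eo N w T := by
      unfold Eo
      rw [hTj]
      exact mul_le_mul_of_nonneg_left hlow (by positivity)
    have h5 : ε / 2 * ((N / L ^ j * (1 / (2 * (W : ℝ)))) * (H / L)) ≤ ε / 2 * (Eo N w T * (H / L)) := by
      apply mul_le_mul_of_nonneg_left _ (by positivity)
      exact mul_le_mul_of_nonneg_right h4 (by positivity)
    refine le_trans ?_ h5
    have e : ε / 2 * ((N / L ^ j * (1 / (2 * (W : ℝ)))) * (H / L)) = (ε / (4 * W)) * N * H / L ^ (j + 1) := by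
      rw [pow_succ]; field_simp; ring
    rw [e, le_div_iff₀ (by positivity)]
    have h6 : 3 * L ^ (j + 1) ≤ ε / (4 * W) * (N : ℝ) ^ (3 / 25 : ℝ) := by
      have e2 : 3 * L ^ (j + 1) = ε / (4 * W) * (cE * L ^ (j + 1)) := by
        rw [hcE]; field_simp; ring
      rw [e2]
      exact mul_le_mul_of_nonneg_left l1 (by positivity)
    have e3 : (N : ℝ) = (N : ℝ) ^ (22 / 25 : ℝ) * (N : ℝ) ^ (3 / 25 : ℝ) := by
      rw [← Real.rpow_add hN0]; norm_num
    calc (H : ℝ) * (3 * (N : ℝ) ^ (22 / 25 : ℝ)) * L ^ (j + 1) =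
        (3 * L ^ (j + 1)) * ((N : ℝ) ^ (22 / 25 : ℝ) * H) := by ring
      _ ≤ (ε / (4 * W) * (N : ℝ) ^ (3 / 25 : ℝ)) * ((N : ℝ) ^ (22 / 25 : ℝ) * H) :=
          mul_le_mul_of_nonneg_right h6 (by positivity)
      _ = (ε / (4 * W)) * ((N : ℝ) ^ (22 / 25 : ℝ) * (N : ℝ) ^ (3 / 25 : ℝ)) * H := by ring
      _ = _ := by rw [← e3]
  have h4 := mul_le_mul_of_nonneg_right hm' (show (0 : ℝ) ≤ S'.card from Nat.cast_nonneg _)
  have e4 : ε * (H / L) * Eo N w T = ε / 2 * (Eo N w T * (H / L)) + ε / 2 * (Eo N w T * (H / L)) := by ring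
  rw [e4]
  linarith

end Pool.Agent.L0h43.TF
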