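import Pool.Agent.L0h43.TF.Cls2
import Pool.Agent.L0h10.GE.MAV
import Pool.Agent.L0h43.TE.Real

/-!
# Every even number: almost all pairs of sets of shifts
-/

set_option autoImplicit false

namespace Pool.Agent.L0h43.TF

open Finset Filter Topology Pool.Agent.H387R2
open Pool.Agent.L0h43.TA Pool.Agent.L0h43.TB Pool.Agent.L0h43.TD
open Pool.Agent.H386R2.HL
open Pool.Agent.L0h43.TE (FS FS_ins FS_empty FS_sub sdiff_un Jv_pow)

open Classical in
/-- the primes `p ≤ N` with `N - p`, the `p + d` and the `N - p + d'` almost primes -/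
noncomputable def cG (N : ℕ) (D D' : Finset ℕ) : ℕ :=
  ((Icc 1 N).filter (fun p => p.Prime ∧ 1 < N - p ∧ AP N (N - p) ∧ (∀ d ∈ D, AP N (p + d)) ∧
    ∀ d ∈ D', AP N (N - p + d))).card

lemma F2_le_cG (N : ℕ) (D D' : Finset ℕ) (hN : 1 ≤ N) : (F2 N (SB N) D D').card ≤ cG N D D' := by
  classical
  unfold cG
  apply card_le_card
  intro n hn
  unfold F2 SB at hn
  rw [mem_filter, mem_filter, mem_Ioc] at hn
  rw [mem_filter, mem_Icc]
  have h1 : 1 ≤ Nat.sqrt N := Nat.sqrt_pos.2 hN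
  exact ⟨⟨by omega, hn.1.1.2⟩, hn.1.2.1, by omega, hn.1.2.2.1, hn.2.1, hn.2.2⟩

lemma F2_fiber (N : ℕ) {W : ℕ} (hW : 0 < W) (D D' : Finset ℕ) (a : ℕ → Prop) [DecidablePred a] :
    ∑ ν ∈ (range W).filter a, ((F2 N ((SB N).filter (fun n => n % W = ν)) D D').card : ℝ) ≤
      ((F2 N (SB N) D D').card : ℝ) := by
  classical
  have h1 : (F2 N (SB N) D D').card =
      ∑ ν ∈ range W, (F2 N ((SB N).filter (fun n => n % W = ν)) D D').card := by
    unfold F2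
    exact fiber_sum (SB N) hW _
  rw [h1, Nat.cast_sum]
  apply sum_le_sum_of_subset_of_nonneg (filter_subset _ _)
  intro _ _ _
  exact Nat.cast_nonneg _

lemma Tp_card {N u H k k' : ℕ} {D D' : Finset ℕ} (hN : (2 : ℝ) ≤ (N : ℝ) ^ (1 / 16 : ℝ)) (hHN : u + H < N)
    (hD : D ∈ (Ioc u (u + H)).powersetCard k) (hD' : D'.card = k') : (D ∪ D'.image (sh N)).card = k + k' := by
  classical
  rw [mem_powersetCard] at hD
  rw [card_union_of_disjoint, hD.2, card_image_of_injective _ (sh_inj hN), hD']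
  rw [disjoint_left]
  intro t ht ht2
  rw [mem_image] at ht2
  obtain ⟨s, _, rfl⟩ := ht2
  have h1 := mem_Ioc.1 (hD.1 ht)
  have h2 := sh_ge hN s
  omega

open Classical in
/-- the bad pairs of sets of shifts -/
noncomputable def bdG (N : ℕ) (c : ℝ) (k k' : ℕ) (I I' : Finset ℕ) : Finset (Finset ℕ × Finset ℕ) :=
  (I.powersetCard k ×ˢ I'.powersetCard k').filter (fun q => Opn N q.1 q.2 ∧
    (cG N q.1 q.2 : ℝ) < c * (((N : ℝ) / Nat.totient N) * (N / Real.log N ^ (k + k' + 2))))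

theorem evenAE (hGBL : S_GBL) (hMAV : S_MAV) (k k' : ℕ) : ∃ c : ℝ, 0 < c ∧ ∀ ε : ℝ, 0 < ε →
    ∃ K : ℝ, 1 ≤ K ∧ ∀ A : ℝ, 0 ≤ A → ∃ N₀ : ℕ, ∀ N : ℕ, N₀ ≤ N → Even N →
      ∀ u H u' H' : ℕ, K * Real.log N ≤ H → ((u + H : ℕ) : ℝ) ≤ Real.log N ^ A →
        K * Real.log N ≤ H' → ((u' + H' : ℕ) : ℝ) ≤ Real.log N ^ A →
      ((bdG N c k k' (Ioc u (u + H)) (Ioc u' (u' + H'))).card : ℝ) ≤
        ε * ((H.choose k : ℝ) * (H'.choose k' : ℝ)) := by
  classical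
  obtain ⟨c0, hc0, hc1, HT⟩ := twoL hMAV
  obtain ⟨κ, hκ0, hκ1, HS⟩ := SB_low hGBL
  obtain ⟨w1, hw1⟩ : ∃ w1 : ℕ, w1 = 8 * (k + k' + 3) := ⟨_, rfl⟩
  have hW1pos : (0 : ℝ) < Uni.WW w1 := by exact_mod_cast Uni.WW_pos w1
  obtain ⟨C, hC⟩ : ∃ C : ℝ, C = c0 ^ (k + k') * κ * (1 / (Uni.WW w1 : ℝ) * (1 / 2) ^ (k + k')) := ⟨_, rfl⟩
  have hC0 : 0 < C := by rw [hC]; positivity
  refine ⟨C / 4, by positivity, fun ε hε => ?_⟩
  have hf0 : (0 : ℝ) < k.factorial := by exact_mod_cast k.factorial_pos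
  have hf0' : (0 : ℝ) < k'.factorial := by exact_mod_cast k'.factorial_pos
  obtain ⟨e, he⟩ : ∃ e : ℝ, e = ε * C / (2 * ((2 ^ k * k.factorial) * (2 ^ k' * k'.factorial))) := ⟨_, rfl⟩
  have he0 : 0 < e := by rw [he]; positivity
  obtain ⟨K, hK, w0, H0⟩ := HT k k' e he0
  -- the level of the class
  obtain ⟨J, hJ⟩ : ∃ J, J = max w0 (max w1 8) := ⟨_, rfl⟩
  obtain ⟨w, hw⟩ : ∃ w, w = 2 ^ 2 ^ J - 1 := ⟨_, rfl⟩
  have hJJ : J < 2 ^ 2 ^ J := (Nat.lt_two_pow_self).trans (Nat.lt_two_pow_self)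
  have hwJ : w + 1 = 2 ^ 2 ^ J := by omega
  have hww0 : w0 ≤ w := by
    have : w0 ≤ J := by rw [hJ]; exact le_max_left _ _
    omega
  have hww1 : w1 ≤ w := by
    have : w1 ≤ J := by rw [hJ]; exact (le_max_left _ _).trans (le_max_right _ _)
    omega
  have hw8 : 8 ≤ w := by
    have : 8 ≤ J := by rw [hJ]; exact (le_max_right _ _).trans (le_max_right _ _)
    omega
  refine ⟨K, hK, fun A hA => ?_⟩
  obtain ⟨N1, hN1⟩ := H0 w hww0 A hA
  obtain ⟨N2, hN2⟩ := HS w hw8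
  have tN : Tendsto (fun N : ℕ => (N : ℝ)) atTop atTop := tendsto_natCast_atTop_atTop
  have tL : Tendsto (fun N : ℕ => Real.log (N : ℝ)) atTop atTop := Real.tendsto_log_atTop.comp tN
  have tp : Tendsto (fun N : ℕ => (N : ℝ) ^ (1 / 256 : ℝ)) atTop atTop :=
    (tendsto_rpow_atTop (by norm_num)).comp tN
  have hsm : ∀ᶠ N : ℕ in atTop, Real.log N ^ A ≤ 1 / 2 * (N : ℝ) ^ (1 : ℝ) := by
    have h := (isLittleO_log_rpow_rpow_atTop A (s := 1) one_pos).def (show (0 : ℝ) < 1 / 2 by norm_num)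
    filter_upwards [tN.eventually h, tL.eventually_ge_atTop 0] with N h1 h2
    rw [Real.norm_of_nonneg (by positivity), Real.norm_of_nonneg (by positivity)] at h1
    exact h1
  obtain ⟨N₀, hN₀⟩ := eventually_atTop.1 (hsm.and ((tL.eventually_ge_atTop (max 1 (2 * k + 2 * k' : ℝ))).and
    ((tp.eventually_ge_atTop (max 2 ((w : ℝ) + 1))).and (eventually_ge_atTop (max (max N1 N2) 3)))))
  refine ⟨N₀, fun N hN hev u H u' H' hKH hHA hKH' hHA' => ?_⟩
  obtain ⟨l0, l1, l2, l3⟩ := hN₀ N hN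
  rw [Real.rpow_one] at l0
  have hL1 : 1 ≤ Real.log N := (le_max_left _ _).trans l1
  have hLk : (2 * k + 2 * k' : ℝ) ≤ Real.log N := (le_max_right _ _).trans l1
  have hp2 : (2 : ℝ) ≤ (N : ℝ) ^ (1 / 256 : ℝ) := (le_max_left _ _).trans l2
  have hpw : (w : ℝ) + 1 ≤ (N : ℝ) ^ (1 / 256 : ℝ) := (le_max_right _ _).trans l2
  have hNN1 : N1 ≤ N := ((le_max_left _ _).trans (le_max_left _ _)).trans l3
  have hNN2 : N2 ≤ N := ((le_max_right _ _).trans (le_max_left _ _)).trans l3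
  have hNge3 : 3 ≤ N := (le_max_right _ _).trans l3
  have hN1' : 1 ≤ N := by omega
  have hN3R : (3 : ℝ) ≤ N := by exact_mod_cast hNge3
  have hN0R : (0 : ℝ) < N := by linarith
  have hL0 : 0 < Real.log (N : ℝ) := by linarith
  have hpp : (N : ℝ) ^ (1 / 256 : ℝ) ≤ (N : ℝ) ^ (1 / 16 : ℝ) :=
    Real.rpow_le_rpow_of_exponent_le (by linarith) (by norm_num)
  have hp16 : (2 : ℝ) ≤ (N : ℝ) ^ (1 / 16 : ℝ) := hp2.trans hpp
  have hw16 : (w : ℝ) < (N : ℝ) ^ (1 / 16 : ℝ) := by linarith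
  have hLH : Real.log N ≤ H := (le_mul_of_one_le_left hL0.le hK).trans hKH
  have hLH' : Real.log N ≤ H' := (le_mul_of_one_le_left hL0.le hK).trans hKH'
  have hHN : u + H < N := by
    have : ((u + H : ℕ) : ℝ) < N := by linarith
    exact_mod_cast this
  have hkH : 2 * k ≤ H := by
    have h1 : ((2 * k : ℕ) : ℝ) ≤ H := by
      push_cast
      linarith [Nat.cast_nonneg (α := ℝ) k']
    exact_mod_cast h1
  have hkH' : 2 * k' ≤ H' := by
    have h1 : ((2 * k' : ℕ) : ℝ) ≤ H' := by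
      push_cast
      linarith [Nat.cast_nonneg (α := ℝ) k]
    exact_mod_cast h1
  have hsqN : (N : ℝ) ^ (1 / 16 : ℝ) ≤ Nat.sqrt N := by
    have h1 : √(N : ℝ) < Nat.sqrt N + 1 := Real.real_sqrt_lt_nat_sqrt_succ
    rw [Real.sqrt_eq_rpow] at h1
    have h2 : (N : ℝ) ^ (1 / 16 : ℝ) ≤ (N : ℝ) ^ (1 / 4 : ℝ) :=
      Real.rpow_le_rpow_of_exponent_le (by linarith) (by norm_num)
    have h3 : (N : ℝ) ^ (1 / 4 : ℝ) * (N : ℝ) ^ (1 / 4 : ℝ) = (N : ℝ) ^ (1 / 2 : ℝ) := by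
      rw [← Real.rpow_add hN0R]; norm_num
    have h4 : (2 : ℝ) ≤ (N : ℝ) ^ (1 / 4 : ℝ) := hp16.trans h2
    nlinarith
  obtain ⟨W, hW⟩ : ∃ W, W = Uni.WW w := ⟨_, rfl⟩
  have hWpos : 0 < W := by rw [hW]; exact Uni.WW_pos w
  have hφ0 : (0 : ℝ) < Nat.totient W := by exact_mod_cast Nat.totient_pos.2 hWpos
  have hW0 : (0 : ℝ) < W := by exact_mod_cast hWpos
  have hφN : (0 : ℝ) < Nat.totient N := by exact_mod_cast Nat.totient_pos.2 (by omega)
  -- the main quantities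
  obtain ⟨F, hF⟩ : ∃ F, F = Fw N w := ⟨_, rfl⟩
  obtain ⟨G0, hG0⟩ : ∃ G0 : ℝ, G0 = Uni.gT W {0, sh N 0} := ⟨_, rfl⟩
  have hG00 : 0 ≤ G0 := by rw [hG0]; exact Nat.cast_nonneg _
  have hFlow := Fw_low hN1' hev hp16 hw16
  rw [← hW, ← hF, ← hG0] at hFlow
  have hM0 : 0 < N / Real.log N ^ 2 * ((N : ℝ) / Nat.totient N) := by positivity
  have hFG : 0 < F * G0 := by linarith
  have hF0 : 0 < F := by
    rcases lt_or_ge 0 F with h | h
    · exact h
    · nlinarith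
  have hEF := Eo_le_Fw (w := w) hN1' (by omega) hp2
  rw [← hF] at hEF
  -- the weights
  obtain ⟨P, hP⟩ : ∃ P, P = (Ioc u (u + H)).powersetCard k := ⟨_, rfl⟩
  obtain ⟨P', hP'⟩ : ∃ P', P' = (Ioc u' (u' + H')).powersetCard k' := ⟨_, rfl⟩
  obtain ⟨Bd, hBd⟩ : ∃ Bd, Bd = bdG N (C / 4) k k' (Ioc u (u + H)) (Ioc u' (u' + H')) := ⟨_, rfl⟩
  rw [← hBd]
  have hBdP : Bd ⊆ P ×ˢ P' := by
    rw [hBd, hP, hP']
    unfold bdG
    exact filter_subset _ _
  obtain ⟨g, hg⟩ : ∃ g : Finset ℕ → Finset ℕ → ℝ, g = fun D D' => if (D, D') ∈ Bd then 1 else 0 := ⟨_, rfl⟩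
  have hg0 : ∀ D D', 0 ≤ g D D' := by intro D D'; rw [hg]; simp only; split_ifs <;> norm_num
  have hg1 : ∀ D D', g D D' ≤ 1 := by intro D D'; rw [hg]; simp only; split_ifs <;> norm_num
  have hind : ∀ Φ : Finset ℕ → Finset ℕ → ℝ, ∑ D ∈ P, ∑ D' ∈ P', g D D' * Φ D D' = ∑ q ∈ Bd, Φ q.1 q.2 := by
    intro Φ
    have h1 : ∑ D ∈ P, ∑ D' ∈ P', g D D' * Φ D D' = ∑ q ∈ P ×ˢ P', g q.1 q.2 * Φ q.1 q.2 := by
      rw [sum_product]
    rw [h1, hg]
    simp only [ite_mul, one_mul, zero_mul]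
    rw [← sum_filter]
    apply sum_congr _ (fun _ _ => rfl)
    ext q
    rw [mem_filter]
    exact ⟨fun h => h.2, fun h => ⟨hBdP h, h⟩⟩
  obtain ⟨ρ, hρ⟩ : ∃ ρ, ρ = (W : ℝ) / Nat.totient W / Real.log N := ⟨_, rfl⟩
  have hρ0 : 0 < ρ := by rw [hρ]; positivity
  obtain ⟨h, hh⟩ : ∃ h : ℝ, h = (H / Real.log N) ^ k * (H' / Real.log N) ^ k' := ⟨_, rfl⟩
  have hh0 : 0 ≤ h := by rw [hh]; positivity
  -- one class
  have hone : ∀ ν ∈ (range W).filter (fun ν => OK W ν {0, sh N 0}),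
      (c0 * ρ) ^ (k + k') * κ * F * (∑ D ∈ P.filter (fun D => OK W ν D),
        ∑ D' ∈ P'.filter (fun D' => OK W (vr N W ν) D'), g D D') - e * (h * F) ≤
      ∑ D ∈ P.filter (fun D => OK W ν D), ∑ D' ∈ P'.filter (fun D' => OK W (vr N W ν) D'),
        g D D' * ((F2 N ((SB N).filter (fun n => n % W = ν)) D D').card : ℝ) := by
    intro ν hν
    rw [mem_filter, mem_range] at hν
    have h1 := hN1 N hNN1 ν (by rw [← hW]; exact hν.1) (by rw [← hW]; exact hν.2) u H u' H' hKH hHA hKH' hHA' g hg0 hg1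
      ((SB N).filter (fun n => n % W = ν)) (by rw [← hW]; exact SB_RN hN1' hsqN)
    have h2 := hN2 N hNN2 hev ν (by rw [← hW]; exact hν.1) (by rw [← hW]; exact hν.2)
    rw [← hW, ← hF] at h2
    have h3 := Jv_pow W ν u H k ∅
    have h3' := Jv_pow W (vr N W ν) u' H' k' ∅
    rw [sdiff_empty, sdiff_empty] at h3 h3'
    rw [← hW, h3, h3', ← hP, ← hP', ← hρ, ← hh] at h1
    refine le_trans ?_ h1
    obtain ⟨X, hX⟩ : ∃ X, X = ∑ D ∈ P.filter (fun D => OK W ν D),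
        ∑ D' ∈ P'.filter (fun D' => OK W (vr N W ν) D'), g D D' := ⟨_, rfl⟩
    have hX0 : 0 ≤ X := by
      rw [hX]
      exact sum_nonneg fun D _ => sum_nonneg fun D' _ => hg0 D D'
    rw [← hX]
    have h4 : (c0 * ρ) ^ (k + k') * κ * F * X ≤ (c0 * ρ) ^ (k + k') * X *
        (((SB N).filter (fun n => n % W = ν)).card : ℝ) := by
      have h5 := mul_le_mul_of_nonneg_left h2 (show 0 ≤ (c0 * ρ) ^ (k + k') * X by positivity)
      refine le_trans (le_of_eq ?_) h5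
      ring
    have h6 : e * (h * Eo N w {0, sh N 0}) ≤ e * (h * F) :=
      mul_le_mul_of_nonneg_left (mul_le_mul_of_nonneg_left hEF hh0) he0.le
    linarith
  have hsum := sum_le_sum hone
  have hc : ∀ ν ∈ range W, ∀ D D' : Finset ℕ, OK W ν (Tp N D D') ↔
      OK W ν {0, sh N 0} ∧ OK W ν D ∧ OK W (vr N W ν) D' := by
    intro ν hν D D'
    rw [mem_range, hW] at hν
    rw [hW]
    exact OK_Tp hν hw16
  rw [sum_sub_distrib, ← mul_sum, sum_const, nsmul_eq_mul,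
    swap3 (range W) P P' (fun ν => OK W ν {0, sh N 0}) (fun ν D => OK W ν D) (fun ν D' => OK W (vr N W ν) D')
      (fun ν D D' => OK W ν (Tp N D D')) hc (fun _ D D' => g D D'),
    swap3 (range W) P P' (fun ν => OK W ν {0, sh N 0}) (fun ν D => OK W ν D) (fun ν D' => OK W (vr N W ν) D')
      (fun ν D D' => OK W ν (Tp N D D')) hc
      (fun ν D D' => g D D' * ((F2 N ((SB N).filter (fun n => n % W = ν)) D D').card : ℝ))] at hsum
  have hgT : ∀ T : Finset ℕ, (((range W).filter (fun ν => OK W ν T)).card : ℝ) = (Uni.gT W T : ℝ) := by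
    intro T
    rfl
  have s1 : ∑ D ∈ P, ∑ D' ∈ P', ∑ _ν ∈ (range W).filter (fun ν => OK W ν (Tp N D D')), g D D' =
      ∑ q ∈ Bd, (Uni.gT W (Tp N q.1 q.2) : ℝ) := by
    rw [← hind (fun D D' => (Uni.gT W (Tp N D D') : ℝ))]
    apply sum_congr rfl
    intro D _
    apply sum_congr rfl
    intro D' _
    rw [sum_const, nsmul_eq_mul, hgT]
    ring
  have s2 : ∑ D ∈ P, ∑ D' ∈ P', ∑ ν ∈ (range W).filter (fun ν => OK W ν (Tp N D D')),
      g D D' * ((F2 N ((SB N).filter (fun n => n % W = ν)) D D').card : ℝ) ≤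
      ∑ q ∈ Bd, (cG N q.1 q.2 : ℝ) := by
    rw [← hind (fun D D' => (cG N D D' : ℝ))]
    apply sum_le_sum
    intro D _
    apply sum_le_sum
    intro D' _
    rw [← mul_sum]
    apply mul_le_mul_of_nonneg_left _ (hg0 D D')
    refine (F2_fiber N hWpos D D' _).trans ?_
    exact_mod_cast F2_le_cG N D D' hN1'
  rw [s1, hgT, ← hG0] at hsum
  have hsum2 := hsum.trans s2
  -- the bad pairs
  have s3 : (Bd.card : ℝ) * (1 / (Uni.WW w1 : ℝ) * (1 / 2) ^ (k + k') * (((Nat.totient W : ℝ) / W) ^ (k + k') * G0)) ≤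
      ∑ q ∈ Bd, (Uni.gT W (Tp N q.1 q.2) : ℝ) := by
    rw [← nsmul_eq_mul, ← sum_const]
    apply sum_le_sum
    intro q hq
    have hqP := hBdP hq
    rw [mem_product] at hqP
    rw [hBd] at hq
    unfold bdG at hq
    rw [mem_filter] at hq
    have hqk' : q.2.card = k' := by
      have := hqP.2
      rw [hP', mem_powersetCard] at this
      exact this.2
    have hE := Tp_card (k := k) hp16 hHN (by rw [← hP]; exact hqP.1) hqk'
    have hgp : 0 < Uni.gT (Uni.WW w1) (Tp N q.1 q.2) := by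
      apply gT_pos
      intro p hp hpw
      apply nu_of_opn hq.2.1 hp
      have h1 : (p : ℝ) ≤ w := by exact_mod_cast hpw.trans hww1
      linarith
    have hc2 : ({0, sh N 0} : Finset ℕ).card ≤ 2 := card_le_two
    have h1 := rel_gT hwJ hww1 {0, sh N 0} (q.1 ∪ q.2.image (sh N)) (by rw [hE, hw1]; omega) hgp
    rw [hE, ← hW, ← hG0] at h1
    exact h1
  have s4 : ∑ q ∈ Bd, (cG N q.1 q.2 : ℝ) ≤ (Bd.card : ℝ) * (C / 2 * (F * G0) / Real.log N ^ (k + k')) := by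
    rw [← nsmul_eq_mul, ← sum_const]
    apply sum_le_sum
    intro q hq
    rw [hBd] at hq
    unfold bdG at hq
    rw [mem_filter] at hq
    refine hq.2.2.le.trans ?_
    have e1 : C / 4 * (((N : ℝ) / Nat.totient N) * (N / Real.log N ^ (k + k' + 2))) =
        C / 2 * (1 / 2 * (N / Real.log N ^ 2 * ((N : ℝ) / Nat.totient N))) / Real.log N ^ (k + k') := by
      rw [pow_add]
      field_simp
      norm_num
    rw [e1]
    apply div_le_div_of_nonneg_right _ (by positivity)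
    exact mul_le_mul_of_nonneg_left hFlow (by positivity)
  obtain ⟨X, hX⟩ : ∃ X, X = ∑ q ∈ Bd, (Uni.gT W (Tp N q.1 q.2) : ℝ) := ⟨_, rfl⟩
  rw [← hX] at s3 hsum2
  have s5 : (c0 * ρ) ^ (k + k') * κ * F * ((Bd.card : ℝ) * (1 / (Uni.WW w1 : ℝ) * (1 / 2) ^ (k + k') *
      (((Nat.totient W : ℝ) / W) ^ (k + k') * G0))) ≤ (c0 * ρ) ^ (k + k') * κ * F * X :=
    mul_le_mul_of_nonneg_left s3 (by positivity)
  have e2 : (c0 * ρ) ^ (k + k') * κ * F * ((Bd.card : ℝ) * (1 / (Uni.WW w1 : ℝ) * (1 / 2) ^ (k + k') *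
      (((Nat.totient W : ℝ) / W) ^ (k + k') * G0))) = (Bd.card : ℝ) * (C * (F * G0) / Real.log N ^ (k + k')) := by
    rw [hC, hρ, mul_pow c0, div_pow _ (Real.log (N : ℝ)), div_pow (W : ℝ), div_pow (Nat.totient W : ℝ)]
    field_simp
  rw [e2] at s5
  have e3 : G0 * (e * (h * F)) = e * ((H : ℝ) ^ k * (H' : ℝ) ^ k') * ((F * G0) / Real.log N ^ (k + k')) := by
    rw [hh, div_pow, div_pow, pow_add]
    field_simp
  rw [e3] at hsum2
  have s6 := hsum2.trans s4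
  obtain ⟨Z, hZ⟩ : ∃ Z, Z = (F * G0) / Real.log N ^ (k + k') := ⟨_, rfl⟩
  have hZ0 : 0 < Z := by rw [hZ]; positivity
  have e4 : C * (F * G0) / Real.log N ^ (k + k') = C * Z := by rw [hZ]; ring
  have e5 : C / 2 * (F * G0) / Real.log N ^ (k + k') = C / 2 * Z := by rw [hZ]; ring
  rw [e4] at s5
  rw [e5, ← hZ] at s6
  have s7 : ((Bd.card : ℝ) * (C / 2)) * Z ≤ (e * ((H : ℝ) ^ k * (H' : ℝ) ^ k')) * Z := by
    have : (Bd.card : ℝ) * (C * Z) - e * ((H : ℝ) ^ k * (H' : ℝ) ^ k') * Z ≤ (Bd.card : ℝ) * (C / 2 * Z) :=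
      (sub_le_sub_right s5 _).trans s6
    linarith
  have s8 := le_of_mul_le_mul_right s7 hZ0
  have hch := TB.pow_le_choose k H hkH
  have hch' := TB.pow_le_choose k' H' hkH'
  have s9 : (H : ℝ) ^ k * (H' : ℝ) ^ k' ≤ (2 ^ k * k.factorial * (H.choose k : ℝ)) *
      (2 ^ k' * k'.factorial * (H'.choose k' : ℝ)) := mul_le_mul hch hch' (by positivity) (by positivity)
  have s10 := s8.trans (mul_le_mul_of_nonneg_left s9 he0.le)
  have e6 : e * ((2 ^ k * k.factorial * (H.choose k : ℝ)) * (2 ^ k' * k'.factorial * (H'.choose k' : ℝ))) =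
      (ε * ((H.choose k : ℝ) * (H'.choose k' : ℝ))) * (C / 2) := by
    rw [he]
    field_simp
  rw [e6] at s10
  exact le_of_mul_le_mul_right s10 (by positivity)

end Pool.Agent.L0h43.TF
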