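import Pool.Agent.L0h43.TF.Main

/-!
# Many pairs of sets of shifts without fixed prime divisor
-/

set_option autoImplicit false

namespace Pool.Agent.L0h43.TF

open Finset Filter Topology Pool.Agent.H387R2
open Pool.Agent.L0h43.TA Pool.Agent.L0h43.TB Pool.Agent.L0h43.TD

lemma opn_mult {N k k' : ℕ} {D D' : Finset ℕ} (he : Even N) (hD : D.card = k) (hD' : D'.card = k')
    (h : ∀ q : ℕ, q.Prime → q ≤ k + k' + 2 → (∀ d ∈ D, q ∣ d) ∧ ∀ d ∈ D', q ∣ d) : Opn N D D' := by
  classical
  intro q hq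
  rcases Nat.lt_or_ge (k + k' + 2) q with hlt | hle
  · -- large primes
    have : Fact q.Prime := ⟨hq⟩
    obtain ⟨X, hX⟩ : ∃ X : Finset (ZMod q), X = ({0, (N : ZMod q)} ∪ D.image (fun d : ℕ => -(d : ZMod q))) ∪
      D'.image (fun d : ℕ => (N : ZMod q) + d) := ⟨_, rfl⟩
    have hXc : X.card ≤ k + k' + 2 := by
      rw [hX]
      have h1 : ({0, (N : ZMod q)} : Finset (ZMod q)).card ≤ 2 := card_le_two
      have h2 : (D.image (fun d : ℕ => -(d : ZMod q))).card ≤ k := by rw [← hD]; exact card_image_le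
      have h3 : (D'.image (fun d : ℕ => (N : ZMod q) + d)).card ≤ k' := by rw [← hD']; exact card_image_le
      have h4 := card_union_le ({0, (N : ZMod q)} ∪ D.image (fun d : ℕ => -(d : ZMod q)))
        (D'.image (fun d : ℕ => (N : ZMod q) + d))
      have h5 := card_union_le ({0, (N : ZMod q)} : Finset (ZMod q)) (D.image (fun d : ℕ => -(d : ZMod q)))
      omega
    obtain ⟨r, hr⟩ : ∃ r : ZMod q, r ∉ X := by
      by_contra hcon
      push Not at hcon
      have h6 : (univ : Finset (ZMod q)) ⊆ X := fun r _ => hcon r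
      have h7 := card_le_card h6
      rw [card_univ, ZMod.card] at h7
      omega
    rw [hX, mem_union, mem_union, mem_insert, mem_singleton, mem_image, mem_image] at hr
    push Not at hr
    obtain ⟨⟨⟨r1, r2⟩, r3⟩, r4⟩ := hr
    have hrv : ((r.val : ℤ) : ZMod q) = r := by
      rw [Int.cast_natCast]
      exact ZMod.natCast_zmod_val r
    have hz : ∀ z : ℤ, (q : ℤ) ∣ z → (z : ZMod q) = 0 := fun z hz => (ZMod.intCast_zmod_eq_zero_iff_dvd z q).2 hz
    refine ⟨r.val, fun hd => ?_, fun hd => ?_, fun d hd hdd => ?_, fun d hd hdd => ?_⟩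
    · have h1 := hz _ hd
      rw [hrv] at h1
      exact r1 h1
    · have h1 := hz _ hd
      rw [Int.cast_sub, hrv] at h1
      apply r2
      push_cast at h1
      exact (sub_eq_zero.1 h1).symm
    · have h1 := hz _ hdd
      rw [Int.cast_add, hrv] at h1
      apply r3 d hd
      push_cast at h1
      exact (eq_neg_of_add_eq_zero_left h1).symm
    · have h1 := hz _ hdd
      rw [Int.cast_add, Int.cast_sub, hrv] at h1
      apply r4 d hd
      push_cast at h1
      linear_combination h1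
  · obtain ⟨h1, h2⟩ := h q hq hle
    have hz : ∀ d : ℕ, q ∣ d → (q : ℤ) ∣ (d : ℤ) := fun d hd => Int.natCast_dvd_natCast.2 hd
    have key : ∀ m : ℤ, ¬ (q : ℤ) ∣ m → ¬ (q : ℤ) ∣ (N : ℤ) - m → ∃ m : ℤ, ¬ (q : ℤ) ∣ m ∧ ¬ (q : ℤ) ∣ (N : ℤ) - m ∧
        (∀ d ∈ D, ¬ (q : ℤ) ∣ m + d) ∧ ∀ d ∈ D', ¬ (q : ℤ) ∣ (N : ℤ) - m + d := by
      intro m a1 a2
      exact ⟨m, a1, a2, fun d hd hdd => a1 ((dvd_add_left (hz d (h1 d hd))).1 hdd),
        fun d hd hdd => a2 ((dvd_add_left (hz d (h2 d hd))).1 hdd)⟩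
    have hq2 := hq.two_le
    by_cases hN1 : (q : ℤ) ∣ (N : ℤ) - 1
    · apply key (-1)
      · rw [dvd_neg]
        intro h3
        have := Int.le_of_dvd one_pos h3
        omega
      · intro h3
        have h4 : (q : ℤ) ∣ 2 := by
          have h5 := dvd_sub h3 hN1
          have e : (N : ℤ) - -1 - ((N : ℤ) - 1) = 2 := by ring
          rwa [e] at h5
        have h5 := Int.le_of_dvd two_pos h4
        have h6 : q = 2 := by omega
        obtain ⟨t, ht⟩ := he
        rw [h6, ht] at hN1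
        push_cast at hN1
        omega
    · apply key 1 _ hN1
      intro h3
      have := Int.le_of_dvd one_pos h3
      omega

/-- the multiples of `P` in a window -/
lemma mult_card {u H P : ℕ} (hP : 0 < P) : H / P ≤ ((Ioc u (u + H)).filter (fun d => P ∣ d)).card := by
  classical
  have h1 : (range (H / P)).image (fun j => P * (u / P + 1 + j)) ⊆ (Ioc u (u + H)).filter (fun d => P ∣ d) := by
    intro d hd
    rw [mem_image] at hd
    obtain ⟨j, hj, rfl⟩ := hd
    rw [mem_range] at hj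
    rw [mem_filter, mem_Ioc]
    refine ⟨⟨?_, ?_⟩, Dvd.intro _ rfl⟩
    · have h2 := Nat.lt_mul_div_succ u hP
      calc u < P * (u / P + 1) := h2
        _ ≤ P * (u / P + 1 + j) := Nat.mul_le_mul_left _ (by omega)
    · have h2 := Nat.mul_div_le u P
      have h3 := Nat.mul_div_le H P
      have h4 : P * (j + 1) ≤ P * (H / P) := Nat.mul_le_mul_left _ (by omega)
      calc P * (u / P + 1 + j) = P * (u / P) + P * (j + 1) := by ring
        _ ≤ u + H := by omega
  have h2 := card_le_card h1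
  rw [card_image_of_injective, card_range] at h2
  · exact h2
  · intro a b hab
    simp only at hab
    have := Nat.eq_of_mul_eq_mul_left hP hab
    omega

lemma mult_choose {u H P k : ℕ} (hP : 0 < P) (hH : 2 * P * (k + 1) ≤ H) :
    (H.choose k : ℝ) ≤ (4 * P) ^ k * ((((Ioc u (u + H)).filter (fun d => P ∣ d)).card.choose k : ℕ) : ℝ) := by
  obtain ⟨M, hM⟩ : ∃ M, M = ((Ioc u (u + H)).filter (fun d => P ∣ d)).card := ⟨_, rfl⟩
  rw [← hM]
  have h1 : H / P ≤ M := by rw [hM]; exact mult_card hP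
  have h2 : 2 * (k + 1) ≤ H / P := by
    rw [Nat.le_div_iff_mul_le hP]
    calc 2 * (k + 1) * P = 2 * P * (k + 1) := by ring
      _ ≤ H := hH
  have h3 := TB.pow_le_choose k M (by omega)
  have h4 : (H : ℝ) ≤ 2 * P * M := by
    have h5 : H < P * (H / P) + P := by
      have := Nat.lt_mul_div_succ H hP
      rwa [Nat.mul_succ] at this
    have h6 : P ≤ P * (H / P) := Nat.le_mul_of_pos_right _ (by omega)
    have h7 : P * (H / P) ≤ P * M := Nat.mul_le_mul_left _ h1
    have h8 : H ≤ 2 * (P * M) := by omega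
    have h9 : (H : ℝ) ≤ ((2 * (P * M) : ℕ) : ℝ) := by exact_mod_cast h8
    push_cast at h9
    linarith
  have hf : (0 : ℝ) < k.factorial := by exact_mod_cast k.factorial_pos
  have h5 : (H.choose k : ℝ) ≤ (H : ℝ) ^ k / k.factorial := Nat.choose_le_pow_div k H
  have h6 : (H : ℝ) ^ k ≤ (2 * P * M) ^ k := pow_le_pow_left₀ (Nat.cast_nonneg _) h4 k
  refine h5.trans ?_
  rw [div_le_iff₀ hf]
  calc (H : ℝ) ^ k ≤ (2 * P * M) ^ k := h6
    _ = (2 * P) ^ k * (M : ℝ) ^ k := by rw [mul_pow]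
    _ ≤ (2 * P) ^ k * (2 ^ k * k.factorial * (M.choose k : ℝ)) := mul_le_mul_of_nonneg_left h3 (by positivity)
    _ = (4 * P) ^ k * (M.choose k : ℝ) * k.factorial := by
        have e : (4 * (P : ℝ)) ^ k = (2 * P) ^ k * 2 ^ k := by
          rw [← mul_pow]
          congr 1
          ring
        rw [e]
        ring

open Classical in
theorem open_many (k k' : ℕ) : ∃ c : ℝ, 0 < c ∧ ∃ H₀ : ℕ, ∀ N : ℕ, Even N → ∀ u H u' H' : ℕ, H₀ ≤ H → H₀ ≤ H' →
    c * ((H.choose k : ℝ) * (H'.choose k' : ℝ)) ≤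
      ((((Ioc u (u + H)).powersetCard k ×ˢ (Ioc u' (u' + H')).powersetCard k').filter
        (fun q => Opn N q.1 q.2)).card : ℝ) := by
  obtain ⟨P, hP⟩ : ∃ P, P = primorial (k + k' + 2) := ⟨_, rfl⟩
  have hP0 : 0 < P := by rw [hP]; exact primorial_pos _
  have hPR : (0 : ℝ) < P := by exact_mod_cast hP0
  refine ⟨1 / ((4 * P) ^ k * (4 * P) ^ k'), by positivity, 2 * P * (k + k' + 1), ?_⟩
  intro N he u H u' H' hH hH'
  have hHk : 2 * P * (k + 1) ≤ H := le_trans (Nat.mul_le_mul_left _ (by omega)) hH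
  have hHk' : 2 * P * (k' + 1) ≤ H' := le_trans (Nat.mul_le_mul_left _ (by omega)) hH'
  have h1 := mult_choose (u := u) hP0 hHk
  have h2 := mult_choose (u := u') hP0 hHk'
  have h3 : (((Ioc u (u + H)).filter (fun d => P ∣ d)).powersetCard k ×ˢ
      ((Ioc u' (u' + H')).filter (fun d => P ∣ d)).powersetCard k') ⊆
      ((Ioc u (u + H)).powersetCard k ×ˢ (Ioc u' (u' + H')).powersetCard k').filter
        (fun q => Opn N q.1 q.2) := by
    intro q hq
    rw [mem_product, mem_powersetCard, mem_powersetCard] at hq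
    rw [mem_filter, mem_product, mem_powersetCard, mem_powersetCard]
    obtain ⟨⟨a1, a2⟩, a3, a4⟩ := hq
    refine ⟨⟨⟨a1.trans (filter_subset _ _), a2⟩, a3.trans (filter_subset _ _), a4⟩, ?_⟩
    apply opn_mult he a2 a4
    intro p hp hpk
    have hpP : p ∣ P := by
      rw [hP]
      exact (hp.dvd_primorial_iff).2 hpk
    exact ⟨fun d hd => hpP.trans (mem_filter.1 (a1 hd)).2, fun d hd => hpP.trans (mem_filter.1 (a3 hd)).2⟩
  have h4 := card_le_card h3
  rw [card_product, card_powersetCard, card_powersetCard] at h4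
  have h5 : ((((Ioc u (u + H)).filter (fun d => P ∣ d)).card.choose k : ℕ) : ℝ) *
      ((((Ioc u' (u' + H')).filter (fun d => P ∣ d)).card.choose k' : ℕ) : ℝ) ≤
      ((((Ioc u (u + H)).powersetCard k ×ˢ (Ioc u' (u' + H')).powersetCard k').filter
        (fun q => Opn N q.1 q.2)).card : ℝ) := by exact_mod_cast h4
  refine le_trans ?_ h5
  have h6 := mul_le_mul h1 h2 (Nat.cast_nonneg _) (by positivity)
  rw [one_div, inv_mul_le_iff₀ (by positivity)]
  refine h6.trans (le_of_eq ?_)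
  ring

end Pool.Agent.L0h43.TF
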