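import Pool.Agent.L0h43.TF.TwoL
import Pool.Agent.L0h43.TE.Base

/-!
# The local factors for a pair of sets of shifts
-/

set_option autoImplicit false

namespace Pool.Agent.L0h43.TF

open Finset Filter Topology Pool.Agent.H387R2
open Pool.Agent.L0h43.TA Pool.Agent.L0h43.TB Pool.Agent.L0h43.TD
open Pool.Agent.H386R2.HL

lemma gT_prod (w : ℕ) (T : Finset ℕ) : (Uni.gT (Uni.WW w) T : ℝ) / Uni.WW w =
    ∏ p ∈ (w + 1).primesBelow, (1 - (Uni.nuT T p : ℝ) / p) := by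
  have h := Uni.sy_en T w
  have h2 : sy (Uni.en T) w = (∏ p ∈ (w + 1).primesBelow, ((1 - 1 / (p : ℝ))⁻¹) ^ T.card) *
      ∏ p ∈ (w + 1).primesBelow, (1 - (Uni.nuT T p : ℝ) / p) := by
    unfold sy
    rw [← prod_mul_distrib]
    apply prod_congr rfl
    intro p hp
    rw [Uni.loc_en]
    unfold Uni.locT
    rw [inv_pow, inv_mul_eq_div]
  have h3 : ∏ p ∈ (w + 1).primesBelow, ((1 - 1 / (p : ℝ))⁻¹) ^ T.card =
      ((Uni.WW w : ℝ) / Nat.totient (Uni.WW w)) ^ T.card := by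
    rw [Finset.prod_pow, Uni.totient_WW, prod_inv_distrib]
    congr 1
    have hW : (Uni.WW w : ℝ) ≠ 0 := by exact_mod_cast (Uni.WW_pos w).ne'
    rw [div_mul_eq_div_div, div_self hW, one_div]
  rw [h2, h3] at h
  have hpos : (0 : ℝ) < ((Uni.WW w : ℝ) / Nat.totient (Uni.WW w)) ^ T.card := by
    have h4 : (0 : ℝ) < Uni.WW w := by exact_mod_cast Uni.WW_pos w
    have h5 : (0 : ℝ) < Nat.totient (Uni.WW w) := by exact_mod_cast Nat.totient_pos.2 (Uni.WW_pos w)
    positivity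
  exact (mul_left_cancel₀ hpos.ne' h).symm

lemma gT_pos {w : ℕ} {T : Finset ℕ} (h : ∀ p : ℕ, p.Prime → p ≤ w → Uni.nuT T p < p) :
    0 < Uni.gT (Uni.WW w) T := by
  have h1 := gT_prod w T
  have h2 : 0 < ∏ p ∈ (w + 1).primesBelow, (1 - (Uni.nuT T p : ℝ) / p) := by
    apply prod_pos
    intro p hp
    rw [Nat.mem_primesBelow] at hp
    have h3 := h p hp.2 (by omega)
    have h4 : (Uni.nuT T p : ℝ) < p := by exact_mod_cast h3
    have h5 : (0 : ℝ) < p := by exact_mod_cast hp.2.pos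
    rw [sub_pos, div_lt_one h5]
    exact h4
  rw [← h1] at h2
  by_contra h0
  have h6 : Uni.gT (Uni.WW w) T = 0 := by omega
  rw [h6, Nat.cast_zero, zero_div] at h2
  exact lt_irrefl _ h2

lemma Vw_nonneg' {w J : ℕ} (T : Finset ℕ) : 0 ≤ Vw w J T := by
  rw [Vw_LT]
  have := V1w_pos w J
  have := LT_nonneg w J T
  positivity

lemma Vw_low_set {w J : ℕ} (B E : Finset ℕ) (hw : 8 * (B.card + E.card + 1) ≤ w) :
    (1 / 2 * V1w w J) ^ E.card * Vw w J B ≤ Vw w J (B ∪ E) := by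
  classical
  induction E using Finset.induction_on with
  | empty => rw [card_empty, pow_zero, one_mul, union_empty]
  | insert x E hx ih =>
    rw [card_insert_of_notMem hx] at hw ⊢
    have ih := ih (by omega)
    rw [union_insert]
    have hc : (B ∪ E).card ≤ B.card + E.card := card_union_le _ _
    have h1 := Vw_low (J := J) (B ∪ E) x (w := w) (by omega)
    have hw0 : (0 : ℝ) < w := by exact_mod_cast (by omega : 0 < w)
    have h2 : (1 : ℝ) / 2 ≤ 1 - 4 * (B ∪ E).card / w := by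
      have h3 : 4 * ((B ∪ E).card : ℝ) / w ≤ 1 / 2 := by
        rw [div_le_iff₀ hw0]
        have h4 : 8 * (B ∪ E).card ≤ w := by omega
        have h5 : (8 * ((B ∪ E).card : ℝ)) ≤ w := by exact_mod_cast h4
        linarith
      linarith
    have hV := V1w_pos w J
    have hV0 : 0 ≤ Vw w J (B ∪ E) := Vw_nonneg' _
    calc (1 / 2 * V1w w J) ^ (E.card + 1) * Vw w J B = (1 / 2 * V1w w J) * ((1 / 2 * V1w w J) ^ E.card * Vw w J B) := by
          ring
      _ ≤ (1 / 2 * V1w w J) * Vw w J (B ∪ E) := mul_le_mul_of_nonneg_left ih (by positivity)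
      _ = 1 / 2 * (Vw w J (B ∪ E) * V1w w J) := by ring
      _ ≤ (1 - 4 * (B ∪ E).card / w) * (Vw w J (B ∪ E) * V1w w J) := mul_le_mul_of_nonneg_right h2 (by positivity)
      _ ≤ _ := h1

lemma gT_VT {w J : ℕ} (hw : w + 1 = 2 ^ 2 ^ J) (T : Finset ℕ) :
    (Uni.gT (Uni.WW w) T : ℝ) / Uni.WW w = VT J T := by
  rw [gT_prod, hw]
  rfl

lemma V1w_ge {w w1 J : ℕ} (hw : w + 1 = 2 ^ 2 ^ J) (hw1 : w1 ≤ w) :
    (Nat.totient (Uni.WW w) : ℝ) / Uni.WW w ≤ V1w w1 J := by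
  have h1 := V1_split (w := w) (J := J) (by omega)
  have h2 := V1_split (w := w1) (J := J) (by omega)
  have h3 : V1w w J = 1 := by
    unfold V1w
    have h4 : Pw w J = ∅ := by
      unfold Pw Ps
      apply filter_eq_empty_iff.2
      intro p hp
      rw [mem_filter, mem_range] at hp
      omega
    rw [h4, prod_empty]
  rw [h3, mul_one] at h1
  rw [← h1, h2]
  have h5 := V1w_pos w1 J
  have hW : (0 : ℝ) < Uni.WW w1 := by exact_mod_cast (Uni.WW_pos w1)
  apply mul_le_of_le_one_left h5.le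
  rw [div_le_one hW]
  exact_mod_cast Nat.totient_le _

lemma rel_gT {w w1 J : ℕ} (hw : w + 1 = 2 ^ 2 ^ J) (hw1 : w1 ≤ w) (B E : Finset ℕ)
    (h8 : 8 * (B.card + E.card + 1) ≤ w1) (hpos : 0 < Uni.gT (Uni.WW w1) (B ∪ E)) :
    1 / (Uni.WW w1 : ℝ) * (1 / 2) ^ E.card * (((Nat.totient (Uni.WW w) : ℝ) / Uni.WW w) ^ E.card *
      (Uni.gT (Uni.WW w) B : ℝ)) ≤ Uni.gT (Uni.WW w) (B ∪ E) := by
  have hW : (0 : ℝ) < Uni.WW w := by exact_mod_cast (Uni.WW_pos w)
  have hW1 : (0 : ℝ) < Uni.WW w1 := by exact_mod_cast (Uni.WW_pos w1)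
  have hφ : (0 : ℝ) < Nat.totient (Uni.WW w) := by exact_mod_cast Nat.totient_pos.2 (Uni.WW_pos w)
  have e1 := (gT_VT hw (B ∪ E)).trans (VT_split (w := w1) (by omega) (B ∪ E))
  have e2 := (gT_VT hw B).trans (VT_split (w := w1) (by omega) B)
  have h1 : 1 / (Uni.WW w1 : ℝ) ≤ Uni.gT (Uni.WW w1) (B ∪ E) / Uni.WW w1 := by
    apply div_le_div_of_nonneg_right _ hW1.le
    exact_mod_cast hpos
  have h2 : (Uni.gT (Uni.WW w1) B : ℝ) / Uni.WW w1 ≤ 1 := by
    rw [div_le_one hW1]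
    have h3 : Uni.gT (Uni.WW w1) B ≤ Uni.WW w1 := by
      unfold Uni.gT
      exact (card_filter_le _ _).trans (card_range _).le
    exact_mod_cast h3
  have h3 := Vw_low_set (J := J) B E h8
  have h4 := V1w_ge hw hw1
  have h5 : 0 ≤ Vw w1 J B := Vw_nonneg' _
  have h6 := V1w_pos w1 J
  have h7 : (Uni.gT (Uni.WW w) B : ℝ) / Uni.WW w ≤ Vw w1 J B := by
    rw [e2]
    exact mul_le_of_le_one_left h5 h2
  have h9 : 1 / (Uni.WW w1 : ℝ) * ((1 / 2 * ((Nat.totient (Uni.WW w) : ℝ) / Uni.WW w)) ^ E.card *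
      ((Uni.gT (Uni.WW w) B : ℝ) / Uni.WW w)) ≤ (Uni.gT (Uni.WW w) (B ∪ E) : ℝ) / Uni.WW w := by
    rw [e1]
    apply mul_le_mul h1 _ (by positivity) (by positivity)
    refine le_trans ?_ h3
    apply mul_le_mul _ h7 (by positivity) (by positivity)
    apply pow_le_pow_left₀ (by positivity)
    linarith
  rw [le_div_iff₀ hW] at h9
  refine le_trans (le_of_eq ?_) h9
  rw [mul_pow]
  field_simp

/-- the expected number of the primes in a class, for the sums `N = p + m` -/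
noncomputable def Fw (N w : ℕ) : ℝ := N / Real.log N ^ 2 / Nat.totient (Uni.WW w) *
  (((Uni.WW w * N : ℕ) : ℝ) / Nat.totient (Uni.WW w * N))

lemma WN_split {N w : ℕ} (hN : 0 < N) : ((Uni.WW w * N : ℕ) : ℝ) / Nat.totient (Uni.WW w * N) =
    (Uni.WW w : ℝ) / Nat.totient (Uni.WW w) * ∏ p ∈ N.primeFactors.filter (fun p => w < p), (1 - 1 / (p : ℝ))⁻¹ := by
  obtain ⟨W, hW⟩ : ∃ W, W = Uni.WW w := ⟨_, rfl⟩
  have hWpos : 0 < W := by rw [hW]; exact Uni.WW_pos w
  obtain ⟨F, hF⟩ : ∃ F, F = N.primeFactors.filter (fun p => w < p) := ⟨_, rfl⟩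
  rw [← hW, ← hF]
  rw [div_totient (Nat.mul_pos hWpos hN), div_totient hWpos, Nat.primeFactors_mul hWpos.ne' (by omega)]
  have h5 : W.primeFactors ∪ N.primeFactors = W.primeFactors ∪ F := by
    rw [hF, hW, primeFactors_WW]
    ext p
    simp only [mem_union, Nat.mem_primesBelow, mem_filter, Nat.mem_primeFactors]
    constructor
    · rintro (c | ⟨c1, c2, c3⟩)
      · left; exact c
      · rcases Nat.lt_or_ge w p with h | h
        · right; exact ⟨⟨c1, c2, c3⟩, h⟩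
        · left; exact ⟨by omega, c1⟩
    · rintro (c | ⟨c, _⟩)
      · left; exact c
      · right; exact c
  have h6 : Disjoint W.primeFactors F := by
    rw [disjoint_left, hF, hW, primeFactors_WW]
    intro p hp hp2
    rw [Nat.mem_primesBelow] at hp
    have := (mem_filter.1 hp2).2
    omega
  rw [h5, prod_union h6]

lemma inv_fac_ge {p : ℕ} (hp : p.Prime) : 1 ≤ (1 - 1 / (p : ℝ))⁻¹ := by
  have h1 := fac_pos hp
  rw [one_le_inv₀ h1]
  have : 0 ≤ 1 / (p : ℝ) := by positivity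
  linarith

lemma Eo_le_Fw {N w : ℕ} (hN : 1 ≤ N) (hw : 3 ≤ w) (h2 : (2 : ℝ) ≤ (N : ℝ) ^ (1 / 256 : ℝ)) :
    Eo N w {0, sh N 0} ≤ Fw N w := by
  classical
  have hNR : (1 : ℝ) ≤ N := by exact_mod_cast hN
  have h16 : (N : ℝ) ^ (1 / 256 : ℝ) ≤ (N : ℝ) ^ (1 / 16 : ℝ) :=
    Real.rpow_le_rpow_of_exponent_le hNR (by norm_num)
  have hsh := sh_ge (h2.trans h16) 0
  have hW : (0 : ℝ) < Uni.WW w := by exact_mod_cast (Uni.WW_pos w)
  have hφ : (0 : ℝ) < Nat.totient (Uni.WW w) := by exact_mod_cast Nat.totient_pos.2 (Uni.WW_pos w)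
  have hL : 0 ≤ Real.log (N : ℝ) := Real.log_nonneg hNR
  have h1 : LT w (J0 N) {0, sh N 0} ≤ ∏ p ∈ N.primeFactors.filter (fun p => w < p), (1 - 1 / (p : ℝ))⁻¹ := by
    have h3 : LT w (J0 N) {0, sh N 0} ≤ ∏ p ∈ Pw w (J0 N), (if p ∣ ds 0 (sh N 0) then (1 - 1 / (p : ℝ))⁻¹ else 1) := by
      unfold LT
      apply Finset.prod_le_prod
      · intro p hp
        exact Pool.Agent.Helper22K9.Trp.locT_nonneg _ (Pw_prime hp)
      · intro p hp
        have := Pw_gt hp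
        exact loc_pair_up (by omega) (by omega)
    refine h3.trans ?_
    rw [← prod_filter]
    have hsub : (Pw w (J0 N)).filter (fun p => p ∣ ds 0 (sh N 0)) ⊆ N.primeFactors.filter (fun p => w < p) := by
      intro p hp
      rw [mem_filter] at hp
      rw [mem_filter, Nat.mem_primeFactors]
      have hpp := Pw_prime hp.1
      have h3 : (p : ℝ) < ((2 ^ 2 ^ J0 N : ℕ) : ℝ) := by exact_mod_cast Pw_lt hp.1
      push_cast at h3
      have h4 : (p : ℝ) < (N : ℝ) ^ (1 / 16 : ℝ) := (h3.trans_le (J0_le h2)).trans_le h16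
      have h5 := sh_dvd (s := 0) hpp h4
      have h6 : p ∣ sh N 0 := by
        have h7 := hp.2
        unfold ds at h7
        rwa [Nat.zero_sub, Nat.sub_zero, Nat.zero_add] at h7
      exact ⟨⟨hpp, (Nat.dvd_add_right h6).1 (by rwa [add_zero] at h5), by omega⟩, Pw_gt hp.1⟩
    rw [← prod_sdiff hsub]
    apply le_mul_of_one_le_left
    · apply prod_nonneg
      intro p hp
      have := inv_fac_ge (Pw_prime (mem_filter.1 hp).1)
      linarith
    · apply one_le_prodR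
      intro p hp
      rw [Finset.mem_sdiff, mem_filter, Nat.mem_primeFactors] at hp
      exact inv_fac_ge hp.1.1.1
  unfold Eo Xo Fw
  rw [WN_split (by omega), card_pair (by omega)]
  obtain ⟨R, hR⟩ : ∃ R, R = ∏ p ∈ N.primeFactors.filter (fun p => w < p), (1 - 1 / (p : ℝ))⁻¹ := ⟨_, rfl⟩
  rw [← hR] at h1 ⊢
  have e : N / Real.log N ^ 2 / Nat.totient (Uni.WW w) * ((Uni.WW w : ℝ) / Nat.totient (Uni.WW w) * R) =
      N / Real.log N ^ 2 * (1 / (Uni.WW w : ℝ) * ((Uni.WW w : ℝ) / Nat.totient (Uni.WW w)) ^ 2 * R) := by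
    field_simp
  rw [e]
  apply mul_le_mul_of_nonneg_left _ (by positivity)
  exact mul_le_mul_of_nonneg_left h1 (by positivity)

lemma tele (n : ℕ) : ∏ m ∈ Ico 3 (n + 3), (1 - 1 / ((m : ℝ) - 1) ^ 2) = ((n : ℝ) + 2) / (2 * ((n : ℝ) + 1)) := by
  induction n with
  | zero => norm_num
  | succ n ih =>
    rw [show n + 1 + 3 = (n + 3) + 1 by ring, prod_Ico_succ_top (by omega), ih]
    push_cast
    have h1 : (n : ℝ) + 1 ≠ 0 := by positivity
    have h2 : (n : ℝ) + 3 - 1 ≠ 0 := by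
      have : (0 : ℝ) ≤ n := Nat.cast_nonneg _
      linarith
    have h3 : (n : ℝ) + 3 - 1 = n + 2 := by ring
    rw [h3] at h2 ⊢
    have h4 : (n : ℝ) + 1 + 1 ≠ 0 := by positivity
    field_simp
    ring

lemma fac3 {m : ℕ} (hm : 3 ≤ m) : 0 ≤ 1 - 1 / ((m : ℝ) - 1) ^ 2 ∧ 1 - 1 / ((m : ℝ) - 1) ^ 2 ≤ 1 := by
  have h1 : (3 : ℝ) ≤ m := by exact_mod_cast hm
  have h2 : (1 : ℝ) ≤ ((m : ℝ) - 1) ^ 2 := by nlinarith
  have h3 : 1 / ((m : ℝ) - 1) ^ 2 ≤ 1 := by
    rw [div_le_one (by linarith)]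
    exact h2
  have h4 : 0 ≤ 1 / ((m : ℝ) - 1) ^ 2 := by positivity
  exact ⟨by linarith, by linarith⟩

lemma half_prod (S : Finset ℕ) (hS : ∀ p ∈ S, 3 ≤ p) : 1 / 2 ≤ ∏ p ∈ S, (1 - 1 / ((p : ℝ) - 1) ^ 2) := by
  classical
  obtain ⟨n, hn⟩ : ∃ n, n = S.sup id := ⟨_, rfl⟩
  have hsub : S ⊆ Ico 3 (n + 3) := by
    intro p hp
    have h1 : p ≤ n := by rw [hn]; exact le_sup (f := id) hp
    rw [mem_Ico]
    exact ⟨hS p hp, by omega⟩
  have h1 := tele n
  rw [← prod_sdiff hsub] at h1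
  have h2 : ∏ p ∈ Ico 3 (n + 3) \ S, (1 - 1 / ((p : ℝ) - 1) ^ 2) ≤ 1 := by
    apply prod_le_one
    · intro p hp
      rw [Finset.mem_sdiff, mem_Ico] at hp
      exact (fac3 hp.1.1).1
    · intro p hp
      rw [Finset.mem_sdiff, mem_Ico] at hp
      exact (fac3 hp.1.1).2
  have h3 : 0 ≤ ∏ p ∈ S, (1 - 1 / ((p : ℝ) - 1) ^ 2) := prod_nonneg fun p hp => (fac3 (hS p hp)).1
  have h4 : (1 : ℝ) / 2 ≤ (n + 2) / (2 * (n + 1)) := by
    rw [div_le_div_iff₀ (by norm_num) (by positivity)]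
    linarith
  have h5 := mul_le_mul_of_nonneg_right h2 h3
  rw [h1, one_mul] at h5
  linarith

lemma Fw_low {N w : ℕ} (hN : 1 ≤ N) (he : Even N) (h2 : (2 : ℝ) ≤ (N : ℝ) ^ (1 / 16 : ℝ))
    (hw16 : (w : ℝ) < (N : ℝ) ^ (1 / 16 : ℝ)) :
    1 / 2 * (N / Real.log N ^ 2 * ((N : ℝ) / Nat.totient N)) ≤ Fw N w * Uni.gT (Uni.WW w) {0, sh N 0} := by
  classical
  have hNR : (1 : ℝ) ≤ N := by exact_mod_cast hN
  have hsh := sh_ge h2 0
  have hW : (0 : ℝ) < Uni.WW w := by exact_mod_cast (Uni.WW_pos w)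
  have hφ : (0 : ℝ) < Nat.totient (Uni.WW w) := by exact_mod_cast Nat.totient_pos.2 (Uni.WW_pos w)
  have hL : 0 ≤ Real.log (N : ℝ) := Real.log_nonneg hNR
  unfold Fw
  rw [WN_split (by omega)]
  obtain ⟨R, hR⟩ : ∃ R, R = ∏ p ∈ N.primeFactors.filter (fun p => w < p), (1 - 1 / (p : ℝ))⁻¹ := ⟨_, rfl⟩
  have hR1 : 1 ≤ R := by
    rw [hR]
    apply one_le_prodR
    intro p hp
    rw [mem_filter, Nat.mem_primeFactors] at hp
    exact inv_fac_ge hp.1.1
  rw [← hR]
  have e1 : N / Real.log N ^ 2 / Nat.totient (Uni.WW w) * ((Uni.WW w : ℝ) / Nat.totient (Uni.WW w) * R) *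
      Uni.gT (Uni.WW w) {0, sh N 0} = N / Real.log N ^ 2 * (((Uni.WW w : ℝ) / Nat.totient (Uni.WW w)) ^ 2 *
        ((Uni.gT (Uni.WW w) {0, sh N 0} : ℝ) / Uni.WW w) * R) := by
    field_simp
  rw [e1, ← mul_assoc, mul_comm (1 / 2 : ℝ), mul_assoc]
  apply mul_le_mul_of_nonneg_left _ (by positivity)
  have e2 : (N : ℝ) / Nat.totient N = (∏ p ∈ N.primeFactors.filter (fun p => ¬ w < p), (1 - 1 / (p : ℝ))⁻¹) * R := by
    rw [div_totient (by omega), hR, mul_comm]
    exact (prod_filter_mul_prod_filter_not _ _ _).symm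
  rw [e2, ← mul_assoc]
  apply mul_le_mul_of_nonneg_right _ (by linarith)
  have e3 : ((Uni.WW w : ℝ) / Nat.totient (Uni.WW w)) ^ 2 = ∏ p ∈ (w + 1).primesBelow, ((1 - 1 / (p : ℝ))⁻¹) ^ 2 := by
    rw [Finset.prod_pow, Uni.totient_WW, prod_inv_distrib]
    congr 1
    rw [div_mul_eq_div_div, div_self hW.ne', one_div]
  rw [gT_prod, e3, ← prod_mul_distrib]
  have e4 : N.primeFactors.filter (fun p => ¬ w < p) = ((w + 1).primesBelow).filter (fun p => p ∣ N) := by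
    ext p
    simp only [mem_filter, Nat.mem_primeFactors, Nat.mem_primesBelow]
    constructor
    · rintro ⟨⟨a1, a2, a3⟩, a4⟩
      exact ⟨⟨by omega, a1⟩, a2⟩
    · rintro ⟨⟨a1, a2⟩, a3⟩
      exact ⟨⟨a2, a3, by omega⟩, by omega⟩
  rw [e4, prod_filter]
  have h3 := half_prod (((w + 1).primesBelow).filter (fun p => ¬ p ∣ N)) (by
    intro p hp
    rw [mem_filter, Nat.mem_primesBelow] at hp
    have h4 := hp.1.2.two_le
    rcases Nat.lt_or_ge p 3 with h | h
    · exfalso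
      apply hp.2
      have : p = 2 := by omega
      rw [this]
      exact he.two_dvd
    · exact h)
  rw [prod_filter] at h3
  have h5 : 0 ≤ ∏ p ∈ (w + 1).primesBelow, (if p ∣ N then (1 - 1 / (p : ℝ))⁻¹ else 1) := by
    apply prod_nonneg
    intro p hp
    rw [Nat.mem_primesBelow] at hp
    split_ifs
    · linarith [inv_fac_ge hp.2]
    · exact zero_le_one
  refine (mul_le_mul_of_nonneg_right h3 h5).trans ?_
  rw [← prod_mul_distrib]
  apply Finset.prod_le_prod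
  · intro p hp
    rw [Nat.mem_primesBelow] at hp
    have h4 := hp.2.two_le
    apply mul_nonneg
    · split_ifs with h
      · exact zero_le_one
      · rcases Nat.lt_or_ge p 3 with h6 | h6
        · exfalso
          apply h
          have : p = 2 := by omega
          rw [this]
          exact he.two_dvd
        · exact (fac3 h6).1
    · split_ifs
      · linarith [inv_fac_ge hp.2]
      · exact zero_le_one
  · intro p hp
    rw [Nat.mem_primesBelow] at hp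
    have hpp := hp.2
    have hfp := fac_pos hpp
    have hpN : (p : ℝ) < (N : ℝ) ^ (1 / 16 : ℝ) := by
      have : (p : ℝ) ≤ w := by exact_mod_cast (by omega : p ≤ w)
      linarith
    have h5 := sh_dvd (s := 0) hpp hpN
    rw [add_zero] at h5
    by_cases h : p ∣ N
    · have h6 : p ∣ sh N 0 := (Nat.dvd_add_left h).1 h5
      have h7 : Uni.nuT {0, sh N 0} p = 1 := by
        unfold Uni.nuT
        rw [image_insert, image_singleton, Nat.zero_mod, Nat.eq_zero_of_dvd_of_lt (Nat.dvd_of_mod_eq_zero ?_)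
          (Nat.mod_lt _ hpp.pos), pair_eq_singleton, card_singleton]
        rw [Nat.mod_mod]
        exact Nat.mod_eq_zero_of_dvd h6
      rw [if_neg (not_not.2 h), if_pos h, h7, one_mul, Nat.cast_one, pow_two, mul_assoc,
        inv_mul_cancel₀ hfp.ne', mul_one]
    · rw [if_pos h, if_neg h, mul_one]
      have hp3 : 3 ≤ p := by
        have h4 := hpp.two_le
        rcases Nat.lt_or_ge p 3 with h6 | h6
        · exfalso
          apply h
          have : p = 2 := by omega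
          rw [this]
          exact he.two_dvd
        · exact h6
      have hp3R : (3 : ℝ) ≤ p := by exact_mod_cast hp3
      have h7 : (Uni.nuT {0, sh N 0} p : ℝ) ≤ 2 := by
        have h8 := nuT_le_card {0, sh N 0} p
        have h9 : ({0, sh N 0} : Finset ℕ).card ≤ 2 := card_le_two
        exact_mod_cast h8.trans h9
      have h8 : 1 - 2 / (p : ℝ) ≤ 1 - (Uni.nuT {0, sh N 0} p : ℝ) / p := by
        apply sub_le_sub_left
        exact div_le_div_of_nonneg_right h7 (by linarith)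
      have e5 : 1 - 1 / ((p : ℝ) - 1) ^ 2 = (1 - 1 / (p : ℝ))⁻¹ ^ 2 * (1 - 2 / p) := by
        have h9 : (p : ℝ) ≠ 0 := by linarith
        have h10 : (p : ℝ) - 1 ≠ 0 := by linarith
        have e6 : (1 - 1 / (p : ℝ)) = (p - 1) / p := by field_simp
        rw [e6, inv_div]
        field_simp
        ring
      rw [e5]
      exact mul_le_mul_of_nonneg_left h8 (by positivity)

/-- the linear forms `m`, `N - m`, `m + d`, `N - m + d'` have no fixed prime divisor -/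
def Opn (N : ℕ) (D D' : Finset ℕ) : Prop := ∀ q : ℕ, q.Prime → ∃ m : ℤ, ¬ (q : ℤ) ∣ m ∧ ¬ (q : ℤ) ∣ (N : ℤ) - m ∧
  (∀ d ∈ D, ¬ (q : ℤ) ∣ m + d) ∧ ∀ d ∈ D', ¬ (q : ℤ) ∣ (N : ℤ) - m + d

/-- the shifts for a pair of sets -/
noncomputable def Tp (N : ℕ) (D D' : Finset ℕ) : Finset ℕ := {0, sh N 0} ∪ (D ∪ D'.image (sh N))

lemma nu_of_opn {N p : ℕ} {D D' : Finset ℕ} (h : Opn N D D') (hp : p.Prime) (hpN : (p : ℝ) < (N : ℝ) ^ (1 / 16 : ℝ)) :
    Uni.nuT (Tp N D D') p < p := by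
  classical
  obtain ⟨m, h1, h2, h3, h4⟩ := h p hp
  have : Fact p.Prime := ⟨hp⟩
  rw [nuT_zmod]
  have hc : Fintype.card (ZMod p) = p := ZMod.card p
  have hz : ∀ z : ℤ, (z : ZMod p) = 0 → (p : ℤ) ∣ z := fun z hz => (ZMod.intCast_zmod_eq_zero_iff_dvd z p).1 hz
  have key : (-(m : ZMod p)) ∉ (Tp N D D').image (fun t : ℕ => (t : ZMod p)) := by
    intro hm
    rw [mem_image] at hm
    obtain ⟨t, ht, htm⟩ := hm
    unfold Tp at ht
    rw [mem_union, mem_union, mem_insert, mem_singleton, mem_image] at ht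
    rcases ht with (rfl | rfl) | (ht | ⟨s, hs, rfl⟩)
    · apply h1
      apply hz
      rw [Nat.cast_zero] at htm
      exact neg_eq_zero.1 htm.symm
    · apply h2
      apply hz
      rw [sh_zmod hp hpN] at htm
      push_cast at htm ⊢
      linear_combination (-1 : ZMod p) * htm
    · apply h3 t ht
      apply hz
      push_cast
      linear_combination htm
    · apply h4 s hs
      apply hz
      rw [sh_zmod hp hpN] at htm
      push_cast at htm ⊢
      linear_combination (-1 : ZMod p) * htm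
  have h5 := card_lt_univ_of_notMem key
  rwa [hc] at h5

lemma OK_Tp {N w ν : ℕ} {D D' : Finset ℕ} (hν : ν < Uni.WW w) (hw : (w : ℝ) < (N : ℝ) ^ (1 / 16 : ℝ)) :
    OK (Uni.WW w) ν (Tp N D D') ↔
      OK (Uni.WW w) ν {0, sh N 0} ∧ OK (Uni.WW w) ν D ∧ OK (Uni.WW w) (vr N (Uni.WW w) ν) D' := by
  have key : ∀ s : ℕ, Nat.Coprime (Uni.WW w) (ν + sh N s) ↔ Nat.Coprime (Uni.WW w) (vr N (Uni.WW w) ν + s) := by
    intro s
    rw [cop_iff, cop_iff]
    have h1 : ∀ p : ℕ, p.Prime → p ≤ w → (((ν + sh N s : ℕ) : ZMod p) ≠ 0 ↔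
        ((vr N (Uni.WW w) ν + s : ℕ) : ZMod p) ≠ 0) := by
      intro p hp hpw
      have hpN : (p : ℝ) < (N : ℝ) ^ (1 / 16 : ℝ) := lt_of_le_of_lt (by exact_mod_cast hpw) hw
      push_cast
      rw [sh_zmod hp hpN, vr_zmod hν ((dvd_WW hp).2 hpw)]
      have e : (ν : ZMod p) + (-(N : ZMod p) - s) = -((N : ZMod p) - ν + s) := by ring
      rw [e, neg_ne_zero]
    exact ⟨fun h p hp hpw => (h1 p hp hpw).1 (h p hp hpw), fun h p hp hpw => (h1 p hp hpw).2 (h p hp hpw)⟩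
  unfold Tp
  rw [Pool.Agent.L0h43.TE.OK_union, Pool.Agent.L0h43.TE.OK_union]
  have h2 : OK (Uni.WW w) ν (D'.image (sh N)) ↔ OK (Uni.WW w) (vr N (Uni.WW w) ν) D' := by
    unfold OK
    constructor
    · intro h s hs
      exact (key s).1 (h (sh N s) (mem_image_of_mem _ hs))
    · intro h t ht
      rw [mem_image] at ht
      obtain ⟨s, hs, rfl⟩ := ht
      exact (key s).2 (h s hs)
  rw [h2]

end Pool.Agent.L0h43.TF
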