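import Pool.Agent.L0h43.TF.Avg
import Pool.Agent.L0h43.TB.FinZ

/-!
# Shifts which stand for `N + s - n`
-/

set_option autoImplicit false

namespace Pool.Agent.L0h43.TF

open Finset Filter Topology Pool.Agent.H387R2
open Pool.Agent.L0h43.TA Pool.Agent.L0h43.TB Pool.Agent.L0h43.TD
open Pool.Agent.H386R2.HL

/-- a shift which is `≡ - (N + s)` modulo all the primes `< N ^ (1 / 16)` -/
noncomputable def sh (N s : ℕ) : ℕ := (N + s) * (primorial ⌊(N : ℝ) ^ (1 / 16 : ℝ)⌋₊ - 1)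

lemma sh_add (N s : ℕ) : sh N s + (N + s) = (N + s) * primorial ⌊(N : ℝ) ^ (1 / 16 : ℝ)⌋₊ := by
  unfold sh
  have h1 : 0 < primorial ⌊(N : ℝ) ^ (1 / 16 : ℝ)⌋₊ := primorial_pos _
  obtain ⟨q, hq⟩ : ∃ q, primorial ⌊(N : ℝ) ^ (1 / 16 : ℝ)⌋₊ = q + 1 := ⟨_, (Nat.succ_pred_eq_of_pos h1).symm⟩
  rw [hq, Nat.add_sub_cancel]
  ring

lemma sh_dvd {N s p : ℕ} (hp : p.Prime) (hpN : (p : ℝ) < (N : ℝ) ^ (1 / 16 : ℝ)) : p ∣ sh N s + (N + s) := by
  rw [sh_add]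
  apply dvd_mul_of_dvd_right
  unfold primorial
  apply dvd_prod_of_mem
  rw [mem_filter, mem_range]
  exact ⟨Nat.lt_succ_of_le (Nat.le_floor hpN.le), hp⟩

lemma sh_ge {N : ℕ} (hN : (2 : ℝ) ≤ (N : ℝ) ^ (1 / 16 : ℝ)) (s : ℕ) : N + s ≤ sh N s := by
  have h1 : 2 ≤ ⌊(N : ℝ) ^ (1 / 16 : ℝ)⌋₊ := Nat.le_floor (by exact_mod_cast hN)
  have h2 : 2 ∣ primorial ⌊(N : ℝ) ^ (1 / 16 : ℝ)⌋₊ := by
    unfold primorial
    apply dvd_prod_of_mem
    rw [mem_filter, mem_range]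
    exact ⟨Nat.lt_succ_of_le h1, Nat.prime_two⟩
  have h3 := Nat.le_of_dvd (primorial_pos _) h2
  unfold sh
  exact Nat.le_mul_of_pos_right _ (by omega)

lemma sh_inj {N : ℕ} (hN : (2 : ℝ) ≤ (N : ℝ) ^ (1 / 16 : ℝ)) : Function.Injective (sh N) := by
  intro a b hab
  have h1 : 2 ≤ ⌊(N : ℝ) ^ (1 / 16 : ℝ)⌋₊ := Nat.le_floor (by exact_mod_cast hN)
  have h2 : 2 ∣ primorial ⌊(N : ℝ) ^ (1 / 16 : ℝ)⌋₊ := by
    unfold primorial
    apply dvd_prod_of_mem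
    rw [mem_filter, mem_range]
    exact ⟨Nat.lt_succ_of_le h1, Nat.prime_two⟩
  have h3 := Nat.le_of_dvd (primorial_pos _) h2
  unfold sh at hab
  have := Nat.eq_of_mul_eq_mul_right (by omega) hab
  omega

lemma sh_iff {N s n p : ℕ} (hp : p.Prime) (hpN : (p : ℝ) < (N : ℝ) ^ (1 / 16 : ℝ)) (hn : n ≤ N + s) :
    p ∣ n + sh N s ↔ p ∣ N + s - n := by
  have h1 := sh_dvd (s := s) hp hpN
  have e : sh N s + (N + s) = (n + sh N s) + (N + s - n) := by omega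
  rw [e] at h1
  constructor
  · intro h2
    exact (Nat.dvd_add_right h2).1 h1
  · intro h2
    exact (Nat.dvd_add_left h2).1 h1

/-- the number of classes, in `ZMod p` -/
lemma nuT_zmod (T : Finset ℕ) (p : ℕ) : Uni.nuT T p = (T.image (fun t : ℕ => (t : ZMod p))).card := by
  unfold Uni.nuT
  apply card_image_eq'
  intro x _ y _
  rw [ZMod.natCast_eq_natCast_iff']

/-- the shifts for `n` -/
noncomputable def T1 (N : ℕ) (D : Finset ℕ) : Finset ℕ := {0, sh N 0} ∪ D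

/-- the shifts for `N - n` -/
noncomputable def T2 (N : ℕ) (D : Finset ℕ) : Finset ℕ := insert 0 ((insert 0 D).image (sh N))

lemma sh_zmod {N s p : ℕ} (hp : p.Prime) (hpN : (p : ℝ) < (N : ℝ) ^ (1 / 16 : ℝ)) :
    ((sh N s : ℕ) : ZMod p) = - (N : ZMod p) - s := by
  have h1 := (ZMod.natCast_eq_zero_iff (sh N s + (N + s)) p).2 (sh_dvd hp hpN)
  push_cast at h1
  have h2 : ((sh N s : ℕ) : ZMod p) = - ((N : ZMod p) + s) := eq_neg_of_add_eq_zero_left h1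
  rw [h2]
  ring

lemma nuT_refl {N p : ℕ} (D : Finset ℕ) (hp : p.Prime) (hpN : (p : ℝ) < (N : ℝ) ^ (1 / 16 : ℝ)) :
    Uni.nuT (T2 N D) p = Uni.nuT (T1 N D) p := by
  rw [nuT_zmod, nuT_zmod]
  have h1 : (T2 N D).image (fun t : ℕ => (t : ZMod p)) =
      ((T1 N D).image (fun t : ℕ => (t : ZMod p))).image (fun x => - (N : ZMod p) - x) := by
    ext x
    simp only [T1, T2, mem_image, mem_insert, mem_union, mem_singleton]
    constructor
    · rintro ⟨t, ht, rfl⟩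
      rcases ht with rfl | ⟨s, hs, rfl⟩
      · refine ⟨((sh N 0 : ℕ) : ZMod p), ⟨sh N 0, Or.inl (Or.inr rfl), rfl⟩, ?_⟩
        rw [sh_zmod hp hpN]
        push_cast
        ring
      · refine ⟨(s : ZMod p), ⟨s, ?_, rfl⟩, ?_⟩
        · rcases hs with rfl | hs
          · exact Or.inl (Or.inl rfl)
          · exact Or.inr hs
        · rw [sh_zmod hp hpN]
    · rintro ⟨y, ⟨t, ht, rfl⟩, rfl⟩
      rcases ht with (rfl | rfl) | ht
      · refine ⟨sh N 0, Or.inr ⟨0, Or.inl rfl, rfl⟩, ?_⟩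
        rw [sh_zmod hp hpN]
      · refine ⟨0, Or.inl rfl, ?_⟩
        rw [sh_zmod hp hpN]
        push_cast
        ring
      · refine ⟨sh N t, Or.inr ⟨t, Or.inr ht, rfl⟩, ?_⟩
        rw [sh_zmod hp hpN]
  rw [h1, card_image_of_injective]
  intro a b hab
  simpa using hab

end Pool.Agent.L0h43.TF
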