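import Pool.Agent.L0h43.TD.PLc

/-!
# Every even number: statements of two modules
-/

set_option autoImplicit false

namespace Pool.Agent.L0h43.TF

open Finset Filter Topology Pool.Agent.H387R2
open Pool.Agent.L0h43.TA Pool.Agent.L0h43.TB Pool.Agent.L0h43.TD

open Classical in
/-- the primes `n ≡ ν` with `√N < n ≤ N` such that `N - n` is an almost prime -/
noncomputable def GP (N W ν : ℕ) : Finset ℕ :=
  (Ioc (Nat.sqrt N) N).filter (fun n => n % W = ν ∧ n.Prime ∧ 1 < N - n ∧ AP N (N - n))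

/-- module GBL: a prime and an almost prime with sum `N`, in a class modulo `W`: lower bound -/
def S_GBL : Prop := ∃ κ : ℝ, 0 < κ ∧ κ ≤ 1 ∧ ∀ w : ℕ, 8 ≤ w → ∃ N₀ : ℕ, ∀ N : ℕ, N₀ ≤ N → Even N → ∀ ν : ℕ,
    ν < Uni.WW w → Nat.Coprime (Uni.WW w) ν → (∀ p : ℕ, p.Prime → p ∣ Uni.WW w → ¬ N ≡ ν [MOD p]) →
    κ * (N / Real.log N ^ 2 / Nat.totient (Uni.WW w) *
      (((Uni.WW w * N : ℕ) : ℝ) / Nat.totient (Uni.WW w * N))) ≤ ((GP N (Uni.WW w) ν).card : ℝ)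

/-- module MAV: the local factors are `1` on average over the shifts in a class, for a shift `t ≡ -M` -/
def S_MAV : Prop := ∀ (r : ℕ) (δ : ℝ), 0 < δ → ∃ w0 : ℕ, 1 ≤ w0 ∧ ∀ w : ℕ, w0 ≤ w → ∀ W : ℕ, 0 < W →
    (∀ p : ℕ, p.Prime → (p ∣ W ↔ p ≤ w)) → ∀ C0 : ℝ, 0 ≤ C0 → ∃ H0 : ℕ, ∀ H : ℕ, H0 ≤ H → ∀ J ν u t M : ℕ,
      1 ≤ M → (∀ p ∈ Pw w J, p ∣ t + M) →
      (∀ h ∈ Ioc u (u + H), Real.log ((M + h : ℕ) : ℝ) ≤ C0 * H) →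
      ∑ h ∈ (Jv W ν u H).filter (fun h => h ≠ t), (mm w J r (ds h t) - 1) ≤
        δ * ((Nat.totient W : ℝ) / W * H)

end Pool.Agent.L0h43.TF
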