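import Pool.Agent.L0h43.TF.FamG
import Pool.Agent.L0h43.TF.Sh

/-!
# Almost primes next to `n` and next to `N - n`, in a class
-/

set_option autoImplicit false

namespace Pool.Agent.L0h43.TF

open Finset Filter Topology Pool.Agent.H387R2
open Pool.Agent.L0h43.TA Pool.Agent.L0h43.TB Pool.Agent.L0h43.TD
open Pool.Agent.H386R2.HL
open Pool.Agent.L0h43.TE (FS FS_ins FS_empty FS_sub sdiff_un)

open Classical in
/-- the `n` in the class `ν` with `n`, `N - n > √N` without small prime factors -/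
noncomputable def RN (N W ν : ℕ) : Finset ℕ :=
  (Ioc (Nat.sqrt N) N).filter (fun n => n % W = ν ∧ Nat.sqrt N < N - n ∧
    (∀ p : ℕ, p.Prime → p ∣ n → (N : ℝ) ^ (1 / 16 : ℝ) ≤ p) ∧
    ∀ p : ℕ, p.Prime → p ∣ N - n → (N : ℝ) ^ (1 / 16 : ℝ) ≤ p)

open Classical in
/-- the elements `n` of `S` such that the `n + d` and the `N - n + d'` are almost primes -/
noncomputable def F2 (N : ℕ) (S D D' : Finset ℕ) : Finset ℕ :=
  S.filter (fun n => (∀ d ∈ D, AP N (n + d)) ∧ ∀ d ∈ D', AP N (N - n + d))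

/-- the class of `N - n` -/
def vr (N W ν : ℕ) : ℕ := (N % W + W - ν) % W

lemma vr_lt {N W ν : ℕ} (hW : 0 < W) : vr N W ν < W := Nat.mod_lt _ hW

lemma vr_add {N W ν : ℕ} (hν : ν < W) : vr N W ν + ν ≡ N [MOD W] := by
  unfold vr
  have h1 : (N % W + W - ν) % W + ν ≡ (N % W + W - ν) + ν [MOD W] := (Nat.mod_modEq _ _).add_right ν
  have e : (N % W + W - ν) + ν = N % W + W := by omega
  rw [e] at h1
  refine h1.trans ?_
  have h2 : N % W + W ≡ N % W + 0 [MOD W] := Nat.ModEq.add_left _ (by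
    unfold Nat.ModEq
    simp)
  exact h2.trans (by rw [add_zero]; exact Nat.mod_modEq N W)

lemma sub_mod_vr {N W ν n : ℕ} (hν : ν < W) (hn : n ≤ N) (h : n % W = ν) : (N - n) % W = vr N W ν := by
  have h1 := vr_add (N := N) hν
  have h2 : (N - n) + ν ≡ N [MOD W] := by
    have h3 : ν ≡ n [MOD W] := by
      rw [← h]; exact Nat.mod_modEq n W
    have h4 := Nat.ModEq.add_left (N - n) h3
    rwa [Nat.sub_add_cancel hn] at h4
  have h3 := Nat.ModEq.add_right_cancel' ν (h2.trans h1.symm)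
  unfold Nat.ModEq at h3
  rw [h3, Nat.mod_eq_of_lt (vr_lt (by omega))]

lemma vr_zmod {N W ν p : ℕ} (hν : ν < W) (hp : p ∣ W) : ((vr N W ν : ℕ) : ZMod p) = (N : ZMod p) - ν := by
  have h1 := (vr_add (N := N) hν).of_dvd hp
  have h2 := (ZMod.natCast_eq_natCast_iff _ _ _).2 h1
  push_cast at h2
  rw [← h2]
  ring

/-- coprimality to a primorial, prime by prime -/
lemma cop_iff {w m : ℕ} : Nat.Coprime (Uni.WW w) m ↔ ∀ p : ℕ, p.Prime → p ≤ w → (m : ZMod p) ≠ 0 := by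
  constructor
  · intro h p hp hpw h0
    rw [ZMod.natCast_eq_zero_iff] at h0
    have h1 := Nat.dvd_gcd ((dvd_WW hp).2 hpw) h0
    rw [Nat.coprime_iff_gcd_eq_one.1 h] at h1
    exact hp.one_lt.ne' (Nat.dvd_one.1 h1)
  · intro h
    apply Nat.coprime_of_dvd
    intro p hp hpW hpm
    exact h p hp ((dvd_WW hp).1 hpW) ((ZMod.natCast_eq_zero_iff _ _).2 hpm)

lemma OK_refl {N w ν : ℕ} {D : Finset ℕ} (hν : ν < Uni.WW w) (hw : (w : ℝ) < (N : ℝ) ^ (1 / 16 : ℝ))
    (h : OK (Uni.WW w) ν (T1 N D)) : OK (Uni.WW w) (vr N (Uni.WW w) ν) (T2 N D) := by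
  intro t ht
  rw [cop_iff]
  intro p hp hpw h0
  have hpN : (p : ℝ) < (N : ℝ) ^ (1 / 16 : ℝ) := lt_of_le_of_lt (by exact_mod_cast hpw) hw
  push_cast at h0
  rw [vr_zmod hν ((dvd_WW hp).2 hpw)] at h0
  unfold T2 at ht
  rw [mem_insert, mem_image] at ht
  rcases ht with rfl | ⟨s, hs, rfl⟩
  · have h1 := cop_iff.1 (h (sh N 0) (by unfold T1; simp)) p hp hpw
    apply h1
    push_cast
    rw [sh_zmod hp hpN]
    push_cast at h0 ⊢
    linear_combination (-1 : ZMod p) * h0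
  · have h1 := cop_iff.1 (h s (by
      unfold T1
      rw [mem_insert] at hs
      rcases hs with rfl | hs
      · simp
      · exact mem_union_right _ hs)) p hp hpw
    apply h1
    rw [sh_zmod hp hpN] at h0
    push_cast at h0 ⊢
    linear_combination (-1 : ZMod p) * h0

lemma RN_sub {N W ν : ℕ} : RN N W ν ⊆ QS N W ν {0, sh N 0} := by
  classical
  intro n hn
  unfold RN at hn
  rw [mem_filter, mem_Ioc] at hn
  obtain ⟨h1, h2, h3, h4, h5⟩ := hn
  unfold QS
  rw [mem_filter, mem_Ioc]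
  refine ⟨h1, h2, ?_⟩
  intro t ht p hp hpd
  rw [mem_insert, mem_singleton] at ht
  rcases ht with rfl | rfl
  · exact h4 p hp hpd
  · by_contra hlt
    push Not at hlt
    have h6 := (sh_iff hp hlt (by omega : n ≤ N + 0)).1 hpd
    rw [add_zero] at h6
    linarith [h5 p hp h6]

lemma refl_sub {N W ν : ℕ} {S D : Finset ℕ} (hN : 1 ≤ N) (hν : ν < W) (hS : S ⊆ RN N W ν) :
    (FS N S D).image (fun n => N - n) ⊆ QS N W (vr N W ν) (T2 N D) := by
  classical
  have hNR : (1 : ℝ) ≤ N := by exact_mod_cast hN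
  intro n' hn'
  rw [mem_image] at hn'
  obtain ⟨n, hn, rfl⟩ := hn'
  unfold FS at hn
  rw [mem_filter] at hn
  have h0 := hS hn.1
  unfold RN at h0
  rw [mem_filter, mem_Ioc] at h0
  obtain ⟨h1, h2, h3, h4, h5⟩ := h0
  unfold QS
  rw [mem_filter, mem_Ioc]
  refine ⟨⟨h3, Nat.sub_le _ _⟩, sub_mod_vr hν h1.2 h2, ?_⟩
  intro t ht p hp hpd
  unfold T2 at ht
  rw [mem_insert, mem_image] at ht
  rcases ht with rfl | ⟨s, hs, rfl⟩
  · rw [add_zero] at hpd
    exact h5 p hp hpd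
  · by_contra hlt
    push Not at hlt
    have h6 := (sh_iff hp hlt (by omega : N - n ≤ N + s)).1 hpd
    have e : N + s - (N - n) = n + s := by omega
    rw [e] at h6
    rw [mem_insert] at hs
    rcases hs with rfl | hs
    · rw [add_zero] at h6
      linarith [h4 p hp h6]
    · have h7 := (hn.2 s hs).2 p hp h6
      have h8 : (N : ℝ) ^ (1 / 16 : ℝ) ≤ (N : ℝ) ^ (3 / 25 : ℝ) :=
        Real.rpow_le_rpow_of_exponent_le hNR (by norm_num)
      linarith

lemma card_F2 {N : ℕ} {S D D' : Finset ℕ} (hS : ∀ n ∈ S, n ≤ N) :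
    (FS N ((FS N S D).image (fun n => N - n)) D').card = (F2 N S D D').card := by
  classical
  have e : FS N ((FS N S D).image (fun n => N - n)) D' = (F2 N S D D').image (fun n => N - n) := by
    ext m
    unfold FS F2
    simp only [mem_filter, mem_image]
    constructor
    · rintro ⟨⟨n, hn, rfl⟩, h⟩
      exact ⟨n, ⟨hn.1, hn.2, h⟩, rfl⟩
    · rintro ⟨n, hn, rfl⟩
      exact ⟨⟨n, ⟨hn.1, hn.2.1⟩, rfl⟩, hn.2.2⟩
  rw [e, card_image_of_injOn]
  intro a ha b hb hab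
  unfold F2 at ha hb
  rw [mem_coe, mem_filter] at ha hb
  have h1 := hS a ha.1
  have h2 := hS b hb.1
  simp only at hab
  omega

lemma card_im {N : ℕ} {S : Finset ℕ} (hS : ∀ n ∈ S, n ≤ N) : (S.image (fun n => N - n)).card = S.card := by
  classical
  rw [card_image_of_injOn]
  intro a ha b hb hab
  rw [mem_coe] at ha hb
  have h1 := hS a ha
  have h2 := hS b hb
  simp only at hab
  omega

lemma Eo_refl {N w : ℕ} {D : Finset ℕ} (hN : (2 : ℝ) ≤ (N : ℝ) ^ (1 / 256 : ℝ)) (hN1 : 1 ≤ N)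
    (hc : (T2 N D).card = (T1 N D).card) : Eo N w (T2 N D) = Eo N w (T1 N D) := by
  have hNR : (1 : ℝ) ≤ N := by exact_mod_cast hN1
  unfold Eo Xo LT
  rw [hc]
  congr 2
  apply prod_congr rfl
  intro p hp
  have h3 : (p : ℝ) < ((2 ^ 2 ^ J0 N : ℕ) : ℝ) := by exact_mod_cast Pw_lt hp
  push_cast at h3
  have h4 : (p : ℝ) < (N : ℝ) ^ (1 / 16 : ℝ) := by
    refine (h3.trans_le (J0_le hN)).trans_le ?_
    exact Real.rpow_le_rpow_of_exponent_le hNR (by norm_num)
  unfold Uni.locT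
  rw [nuT_refl D (Pw_prime hp) h4, hc]

end Pool.Agent.L0h43.TF
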