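import Pool.Agent.L0h43.TF.Two

/-!
# Almost primes next to `n` and next to `N - n`, in a class: the lower bound
-/

set_option autoImplicit false

namespace Pool.Agent.L0h43.TF

open Finset Filter Topology Pool.Agent.H387R2
open Pool.Agent.L0h43.TA Pool.Agent.L0h43.TB Pool.Agent.L0h43.TD
open Pool.Agent.H386R2.HL
open Pool.Agent.L0h43.TE (FS FS_ins FS_empty FS_sub sdiff_un)

/-- two uses of the abstract induction -/
lemma two_abs {ι : Type*} (P : Finset ι) {c ρ h h' η s E0 : ℝ} {k k' : ℕ} (G F1 E1 R : ι → ℝ)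
    (hc0 : 0 ≤ c) (hc1 : c ≤ 1) (hρ : 0 ≤ ρ) (hh : 0 < h) (hh' : 0 < h') (hη : 0 ≤ η) (hE0 : 0 ≤ E0)
    (a1 : (c * ρ) ^ k * (∑ D ∈ P, ρ ^ k' * G D / (2 * h') ^ k') * s - η * 6 ^ k * h ^ k * E0 ≤
      ∑ D ∈ P, (ρ ^ k' * G D / (2 * h') ^ k') * F1 D)
    (a2 : ∑ D ∈ P, E1 D ≤ (3 * h) ^ k * E0)
    (a3 : ∀ D ∈ P, (c * ρ) ^ k' * G D * F1 D - η * 6 ^ k' * h' ^ k' * E1 D ≤ R D) :
    (c * ρ) ^ (k + k') * (∑ D ∈ P, G D) * s - 2 * η * 6 ^ (k + k') * (h ^ k * h' ^ k' * E0) ≤ ∑ D ∈ P, R D := by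
  have h1 := sum_le_sum a3
  rw [sum_sub_distrib] at h1
  have e1 : ∑ D ∈ P, (ρ ^ k' * G D / (2 * h') ^ k') * F1 D =
      ρ ^ k' / (2 * h') ^ k' * ∑ D ∈ P, G D * F1 D := by
    rw [mul_sum]
    apply sum_congr rfl
    intro D _
    ring
  have e2 : ∑ D ∈ P, ρ ^ k' * G D / (2 * h') ^ k' = ρ ^ k' / (2 * h') ^ k' * ∑ D ∈ P, G D := by
    rw [mul_sum]
    apply sum_congr rfl
    intro D _
    ring
  have e3 : ∑ D ∈ P, (c * ρ) ^ k' * G D * F1 D = (c * ρ) ^ k' * ∑ D ∈ P, G D * F1 D := by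
    rw [mul_sum]
    apply sum_congr rfl
    intro D _
    ring
  have e4 : ∑ D ∈ P, η * 6 ^ k' * h' ^ k' * E1 D = η * 6 ^ k' * h' ^ k' * ∑ D ∈ P, E1 D := by
    rw [mul_sum]
  rw [e1, e2] at a1
  rw [e3, e4] at h1
  obtain ⟨Y, hY⟩ : ∃ Y, Y = ∑ D ∈ P, G D * F1 D := ⟨_, rfl⟩
  obtain ⟨X, hX⟩ : ∃ X, X = ∑ D ∈ P, G D := ⟨_, rfl⟩
  rw [← hY, ← hX] at a1
  rw [← hY] at h1
  rw [← hX]
  have b1 : (c * (2 * h')) ^ k' * ((c * ρ) ^ k * (ρ ^ k' / (2 * h') ^ k' * X) * s - η * 6 ^ k * h ^ k * E0) ≤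
      (c * (2 * h')) ^ k' * (ρ ^ k' / (2 * h') ^ k' * Y) := mul_le_mul_of_nonneg_left a1 (by positivity)
  have e5 : (c * (2 * h')) ^ k' * (ρ ^ k' / (2 * h') ^ k' * Y) = (c * ρ) ^ k' * Y := by
    rw [mul_pow c, mul_pow c]
    field_simp
  have e6 : (c * (2 * h')) ^ k' * ((c * ρ) ^ k * (ρ ^ k' / (2 * h') ^ k' * X) * s - η * 6 ^ k * h ^ k * E0) =
      (c * ρ) ^ (k + k') * X * s - c ^ k' * (η * (2 ^ k' * 6 ^ k) * (h ^ k * h' ^ k' * E0)) := by
    rw [pow_add, mul_pow c (2 * h'), mul_pow c ρ k', mul_sub]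
    have : (2 * h') ^ k' ≠ 0 := by positivity
    field_simp
    rw [mul_pow 2 h']
    ring
  rw [e5, e6] at b1
  have b2 : η * 6 ^ k' * h' ^ k' * ∑ D ∈ P, E1 D ≤ η * 6 ^ k' * h' ^ k' * ((3 * h) ^ k * E0) :=
    mul_le_mul_of_nonneg_left a2 (by positivity)
  have e7 : η * 6 ^ k' * h' ^ k' * ((3 * h) ^ k * E0) = η * (6 ^ k' * 3 ^ k) * (h ^ k * h' ^ k' * E0) := by
    rw [mul_pow]; ring
  rw [e7] at b2
  obtain ⟨Z, hZ⟩ : ∃ Z, Z = h ^ k * h' ^ k' * E0 := ⟨_, rfl⟩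
  have hZ0 : 0 ≤ Z := by rw [hZ]; positivity
  rw [← hZ] at b1 b2 ⊢
  have b3 : c ^ k' * (η * (2 ^ k' * 6 ^ k) * Z) ≤ η * 6 ^ (k + k') * Z := by
    have h3 : c ^ k' ≤ 1 := pow_le_one₀ hc0 hc1
    have h4 : (2 : ℝ) ^ k' * 6 ^ k ≤ 6 ^ (k + k') := by
      rw [pow_add, mul_comm]
      exact mul_le_mul_of_nonneg_left (pow_le_pow_left₀ (by norm_num) (by norm_num) k') (by positivity)
    calc c ^ k' * (η * (2 ^ k' * 6 ^ k) * Z) ≤ 1 * (η * (2 ^ k' * 6 ^ k) * Z) :=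
          mul_le_mul_of_nonneg_right h3 (by positivity)
      _ = η * (2 ^ k' * 6 ^ k) * Z := one_mul _
      _ ≤ η * 6 ^ (k + k') * Z := by
          apply mul_le_mul_of_nonneg_right _ hZ0
          exact mul_le_mul_of_nonneg_left h4 hη
  have b4 : η * (6 ^ k' * 3 ^ k) * Z ≤ η * 6 ^ (k + k') * Z := by
    apply mul_le_mul_of_nonneg_right _ hZ0
    apply mul_le_mul_of_nonneg_left _ hη
    rw [pow_add, mul_comm]
    exact mul_le_mul_of_nonneg_right (pow_le_pow_left₀ (by norm_num) (by norm_num) k) (by positivity)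
  linarith

lemma T1_card {N u H : ℕ} {D : Finset ℕ} (hN : (2 : ℝ) ≤ (N : ℝ) ^ (1 / 16 : ℝ)) (hHN : u + H < N)
    (hD : D ⊆ Ioc u (u + H)) : (T1 N D).card = D.card + 2 ∧ (T2 N D).card = D.card + 2 ∧ Disjoint {0, sh N 0} D := by
  classical
  have h0 := sh_ge hN 0
  have h1 : Disjoint {0, sh N 0} D := by
    rw [disjoint_left]
    intro t ht ht2
    have h2 := mem_Ioc.1 (hD ht2)
    rw [mem_insert, mem_singleton] at ht
    omega
  refine ⟨?_, ?_, h1⟩
  · unfold T1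
    rw [card_union_of_disjoint h1, card_pair (by omega), add_comm]
  · unfold T2
    rw [card_insert_of_notMem, card_image_of_injective _ (sh_inj hN), card_insert_of_notMem]
    · intro h2
      have := mem_Ioc.1 (hD h2)
      omega
    · rw [mem_image]
      rintro ⟨s, _, hs⟩
      have := sh_ge hN s
      omega

theorem twoL (hMAV : S_MAV) : ∃ c0 : ℝ, 0 < c0 ∧ c0 ≤ 1 ∧ ∀ (k k' : ℕ) (ε : ℝ), 0 < ε →
    ∃ K : ℝ, 1 ≤ K ∧ ∃ w0 : ℕ, ∀ w : ℕ, w0 ≤ w → ∀ A : ℝ, 0 ≤ A → ∃ N₀ : ℕ, ∀ N : ℕ, N₀ ≤ N →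
      ∀ ν : ℕ, ν < Uni.WW w → OK (Uni.WW w) ν {0, sh N 0} →
      ∀ u H u' H' : ℕ, K * Real.log N ≤ H → ((u + H : ℕ) : ℝ) ≤ Real.log N ^ A →
        K * Real.log N ≤ H' → ((u' + H' : ℕ) : ℝ) ≤ Real.log N ^ A →
      ∀ g : Finset ℕ → Finset ℕ → ℝ, (∀ D D', 0 ≤ g D D') → (∀ D D', g D D' ≤ 1) → ∀ S ⊆ RN N (Uni.WW w) ν,
        (c0 * ((Uni.WW w : ℝ) / Nat.totient (Uni.WW w) / Real.log N)) ^ (k + k') *
          (∑ D ∈ (Jv (Uni.WW w) ν u H).powersetCard k,
            ∑ D' ∈ (Jv (Uni.WW w) (vr N (Uni.WW w) ν) u' H').powersetCard k', g D D') * (S.card : ℝ) -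
          ε * ((H / Real.log N) ^ k * (H' / Real.log N) ^ k' * Eo N w {0, sh N 0}) ≤
        ∑ D ∈ (Jv (Uni.WW w) ν u H).powersetCard k,
          ∑ D' ∈ (Jv (Uni.WW w) (vr N (Uni.WW w) ν) u' H').powersetCard k', g D D' * ((F2 N S D D').card : ℝ) := by
  classical
  obtain ⟨c0, hc0, hc1, HF⟩ := famG hMAV
  refine ⟨c0, hc0, hc1, fun k k' ε hε => ?_⟩
  obtain ⟨η, hηd⟩ : ∃ η : ℝ, η = min 1 (ε / (2 * 6 ^ (k + k'))) := ⟨_, rfl⟩
  have hη0 : 0 < η := by rw [hηd]; exact lt_min one_pos (by positivity)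
  have hη1 : η ≤ 1 := by rw [hηd]; exact min_le_left _ _
  have hηε : 2 * η * 6 ^ (k + k') ≤ ε := by
    have h1 : η ≤ ε / (2 * 6 ^ (k + k')) := by rw [hηd]; exact min_le_right _ _
    rw [le_div_iff₀ (by positivity)] at h1
    linarith
  obtain ⟨K1, hK1, w1, H1⟩ := HF 2 η hη0 hη1 k
  obtain ⟨K2, hK2, w2, H2⟩ := HF (k + 2) η hη0 hη1 k'
  refine ⟨max K1 K2, hK1.trans (le_max_left _ _), max w1 w2, fun w hw A hA => ?_⟩
  obtain ⟨N1, hN1⟩ := H1 w ((le_max_left _ _).trans hw) A hA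
  obtain ⟨N2, hN2⟩ := H2 w ((le_max_right _ _).trans hw) A hA
  have tN : Tendsto (fun N : ℕ => (N : ℝ)) atTop atTop := tendsto_natCast_atTop_atTop
  have tL : Tendsto (fun N : ℕ => Real.log (N : ℝ)) atTop atTop := Real.tendsto_log_atTop.comp tN
  have tp : Tendsto (fun N : ℕ => (N : ℝ) ^ (1 / 256 : ℝ)) atTop atTop :=
    (tendsto_rpow_atTop (by norm_num)).comp tN
  have hsm : ∀ᶠ N : ℕ in atTop, Real.log N ^ A ≤ 1 / 2 * (N : ℝ) ^ (1 : ℝ) := by
    have h := (isLittleO_log_rpow_rpow_atTop A (s := 1) one_pos).def (show (0 : ℝ) < 1 / 2 by norm_num)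
    filter_upwards [tN.eventually h, tL.eventually_ge_atTop 0] with N h1 h2
    rw [Real.norm_of_nonneg (by positivity), Real.norm_of_nonneg (by positivity)] at h1
    exact h1
  obtain ⟨N₀, hN₀⟩ := eventually_atTop.1 (hsm.and ((tL.eventually_ge_atTop (max 1 (Uni.WW w : ℝ))).and
    ((tp.eventually_ge_atTop (max 2 ((w : ℝ) + 1))).and (eventually_ge_atTop (max (max N1 N2) 3)))))
  refine ⟨N₀, fun N hN ν hν hOK u H u' H' hKH hHA hKH' hHA' g hg0 hg1 S hS => ?_⟩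
  obtain ⟨l0, l1, l2, l3⟩ := hN₀ N hN
  rw [Real.rpow_one] at l0
  have hL1 : 1 ≤ Real.log N := (le_max_left _ _).trans l1
  have hLW : (Uni.WW w : ℝ) ≤ Real.log N := (le_max_right _ _).trans l1
  have hp2 : (2 : ℝ) ≤ (N : ℝ) ^ (1 / 256 : ℝ) := (le_max_left _ _).trans l2
  have hpw : (w : ℝ) + 1 ≤ (N : ℝ) ^ (1 / 256 : ℝ) := (le_max_right _ _).trans l2
  have hNN1 : N1 ≤ N := ((le_max_left _ _).trans (le_max_left _ _)).trans l3
  have hNN2 : N2 ≤ N := ((le_max_right _ _).trans (le_max_left _ _)).trans l3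
  have hNge3 : 3 ≤ N := (le_max_right _ _).trans l3
  have hN1' : 1 ≤ N := by omega
  have hN3R : (3 : ℝ) ≤ N := by exact_mod_cast hNge3
  have hL0 : 0 < Real.log (N : ℝ) := by linarith
  have hpp : (N : ℝ) ^ (1 / 256 : ℝ) ≤ (N : ℝ) ^ (1 / 16 : ℝ) :=
    Real.rpow_le_rpow_of_exponent_le (by linarith) (by norm_num)
  have hp16 : (2 : ℝ) ≤ (N : ℝ) ^ (1 / 16 : ℝ) := hp2.trans hpp
  have hw16 : (w : ℝ) < (N : ℝ) ^ (1 / 16 : ℝ) := by linarith
  have hKH1 : K1 * Real.log N ≤ H := (mul_le_mul_of_nonneg_right (le_max_left _ _) hL0.le).trans hKH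
  have hKH2 : K2 * Real.log N ≤ H' := (mul_le_mul_of_nonneg_right (le_max_right _ _) hL0.le).trans hKH'
  have hLH : Real.log N ≤ H := (le_mul_of_one_le_left hL0.le hK1).trans hKH1
  have hLH' : Real.log N ≤ H' := (le_mul_of_one_le_left hL0.le hK2).trans hKH2
  have hHN : u + H < N := by
    have : ((u + H : ℕ) : ℝ) < N := by linarith
    exact_mod_cast this
  have hHN' : u' + H' < N := by
    have : ((u' + H' : ℕ) : ℝ) < N := by linarith
    exact_mod_cast this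
  obtain ⟨W, hW⟩ : ∃ W, W = Uni.WW w := ⟨_, rfl⟩
  have hWpos : 0 < W := by rw [hW]; exact Uni.WW_pos w
  have hφ0 : (0 : ℝ) < Nat.totient W := by exact_mod_cast Nat.totient_pos.2 hWpos
  have hW0 : (0 : ℝ) < W := by exact_mod_cast hWpos
  have hsh := sh_ge hp16 0
  -- the windows do not meet the shifts
  have hJ1 : Jv W ν u H \ {0, sh N 0} = Jv W ν u H := by
    rw [Finset.sdiff_eq_self_iff_disjoint, disjoint_left]
    intro t ht ht2
    unfold Jv at ht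
    rw [mem_filter, mem_Ioc] at ht
    rw [mem_insert, mem_singleton] at ht2
    omega
  have hJ2 : ∀ D, Jv W (vr N W ν) u' H' \ T2 N D = Jv W (vr N W ν) u' H' := by
    intro D
    rw [Finset.sdiff_eq_self_iff_disjoint, disjoint_left]
    intro t ht ht2
    unfold Jv at ht
    rw [mem_filter, mem_Ioc] at ht
    unfold T2 at ht2
    rw [mem_insert, mem_image] at ht2
    rcases ht2 with rfl | ⟨s, _, hs⟩
    · omega
    · have := sh_ge hp16 s
      omega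
  have fam1 := hN1 N hNN1 {0, sh N 0} (card_pair (by omega)) (by
    intro t ht
    rw [mem_insert, mem_singleton] at ht
    rcases ht with rfl | rfl
    · left
      rw [Nat.cast_zero]; positivity
    · right
      exact ⟨0, by rw [Nat.cast_zero]; positivity, fun p hp hpN => sh_dvd hp hpN⟩) ν hν hOK u H hKH1 hHA S
    (hS.trans RN_sub)
  rw [← hW, hJ1] at fam1
  have fam2 : ∀ D ∈ (Jv W ν u H).powersetCard k,
      Fam0 (Jv W (vr N W ν) u' H') (fun D' => Eo N w (T2 N D ∪ D'))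
        (fun D' => ((FS N ((FS N S D).image (fun n => N - n)) D').card : ℝ)) k'
        c0 ((W : ℝ) / Nat.totient W / Real.log N) (H' / Real.log N) η := by
    intro D hD
    rw [mem_powersetCard] at hD
    have hDI : D ⊆ Ioc u (u + H) := hD.1.trans (by unfold Jv; exact filter_subset _ _)
    obtain ⟨c1, c2, c3⟩ := T1_card hp16 hHN hDI
    rw [hD.2] at c2
    have hT1 : OK W ν (T1 N D) := by
      intro t ht
      unfold T1 at ht
      rcases mem_union.1 ht with ht | ht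
      · rw [hW]; exact hOK t ht
      · have h1 := hD.1 ht
        unfold Jv at h1
        rw [mem_filter] at h1
        exact h1.2
    have h3 := hN2 N hNN2 (T2 N D) c2 (by
      intro t ht
      unfold T2 at ht
      rw [mem_insert, mem_image] at ht
      rcases ht with rfl | ⟨s, hs, rfl⟩
      · left
        rw [Nat.cast_zero]; positivity
      · right
        refine ⟨s, ?_, fun p hp hpN => sh_dvd hp hpN⟩
        rw [mem_insert] at hs
        rcases hs with rfl | hs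
        · rw [Nat.cast_zero]; positivity
        · have h4 : (s : ℝ) ≤ ((u + H : ℕ) : ℝ) := by exact_mod_cast (mem_Ioc.1 (hDI hs)).2
          exact h4.trans hHA) (vr N W ν) (by rw [← hW]; exact vr_lt hWpos) (by
        rw [hW]
        exact OK_refl hν hw16 (by rw [← hW]; exact hT1)) u' H' hKH2 hHA' ((FS N S D).image (fun n => N - n)) (by
        rw [← hW]
        exact refl_sub hN1' (by rw [hW]; exact hν) (by rw [hW]; exact hS))
    rw [← hW, hJ2] at h3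
    exact h3
  rw [← hW]
  obtain ⟨P', hP'⟩ : ∃ P', P' = (Jv W (vr N W ν) u' H').powersetCard k' := ⟨_, rfl⟩
  obtain ⟨ρ, hρ⟩ : ∃ ρ, ρ = (W : ℝ) / Nat.totient W / Real.log N := ⟨_, rfl⟩
  obtain ⟨h, hh⟩ : ∃ h : ℝ, h = H / Real.log N := ⟨_, rfl⟩
  obtain ⟨h', hh'⟩ : ∃ h' : ℝ, h' = H' / Real.log N := ⟨_, rfl⟩
  have hρ0 : 0 < ρ := by rw [hρ]; positivity
  have hh0 : 0 < h := by rw [hh]; exact div_pos (by linarith) hL0
  have hh'0 : 0 < h' := by rw [hh']; exact div_pos (by linarith) hL0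
  rw [← hρ, ← hh] at fam1
  rw [← hρ, ← hh'] at fam2
  rw [← hP', ← hρ, ← hh, ← hh']
  have hSN : ∀ n ∈ S, n ≤ N := by
    intro n hn
    have h1 := hS hn
    unfold RN at h1
    rw [mem_filter, mem_Ioc] at h1
    exact h1.1.2
  have hG1 : ∀ D, ρ ^ k' * ∑ D' ∈ P', g D D' ≤ (2 * h') ^ k' := by
    intro D
    have h1 : ∑ D' ∈ P', g D D' ≤ (P'.card : ℝ) := by
      calc ∑ D' ∈ P', g D D' ≤ ∑ _D' ∈ P', (1 : ℝ) := sum_le_sum fun D' _ => hg1 D D'
        _ = _ := by rw [sum_const, nsmul_eq_mul, mul_one]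
    have h2 : (P'.card : ℝ) ≤ ((Jv W (vr N W ν) u' H').card : ℝ) ^ k' := by
      rw [hP', card_powersetCard]
      exact_mod_cast Nat.choose_le_pow _ _
    have h3 : ρ * ((Jv W (vr N W ν) u' H').card : ℝ) ≤ 2 * h' := by
      have h4 := Jv_card_le (ν := vr N W ν) (u := u') (H := H') hWpos (∅ : Finset ℕ)
      rw [sdiff_empty] at h4
      rw [hρ, hh']
      calc (W : ℝ) / Nat.totient W / Real.log N * ((Jv W (vr N W ν) u' H').card : ℝ) =
          ((W : ℝ) / Nat.totient W * ((Jv W (vr N W ν) u' H').card : ℝ)) / Real.log N := by ring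
        _ ≤ (2 * H') / Real.log N := by
            apply div_le_div_of_nonneg_right _ hL0.le
            have h5 : (W : ℝ) ≤ H' := by rw [hW]; linarith
            linarith
        _ = _ := by ring
    calc ρ ^ k' * ∑ D' ∈ P', g D D' ≤ ρ ^ k' * ((Jv W (vr N W ν) u' H').card : ℝ) ^ k' :=
          mul_le_mul_of_nonneg_left (h1.trans h2) (by positivity)
      _ = (ρ * ((Jv W (vr N W ν) u' H').card : ℝ)) ^ k' := by rw [mul_pow]
      _ ≤ _ := pow_le_pow_left₀ (by positivity) h3 _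
  have hG0 : ∀ D, 0 ≤ ∑ D' ∈ P', g D D' := fun D => sum_nonneg fun D' _ => hg0 D D'
  have low1 := fam1.lower (fun D => ρ ^ k' * (∑ D' ∈ P', g D D') / (2 * h') ^ k')
    (fun D => by have := hG0 D; positivity)
    (fun D => by
      rw [div_le_one (by positivity)]
      exact hG1 D)
  have tot1 := fam1.total
  have hE0 : ({0, sh N 0} ∪ ∅ : Finset ℕ) = {0, sh N 0} := union_empty _
  rw [hE0] at low1 tot1
  rw [FS_empty] at low1
  have hEnn : 0 ≤ Eo N w {0, sh N 0} := Eo_nonneg hN1'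
  have main := two_abs ((Jv W ν u H).powersetCard k) (fun D => ∑ D' ∈ P', g D D') (fun D => ((FS N S D).card : ℝ))
    (fun D => Eo N w ({0, sh N 0} ∪ D)) (fun D => ∑ D' ∈ P', g D D' * ((F2 N S D D').card : ℝ))
    hc0.le hc1 hρ0.le hh0 hh'0 hη0.le hEnn low1 tot1 (by
      intro D hD
      have f2 := fam2 D hD
      have low2 := f2.lower (fun D' => g D D') (fun D' => hg0 D D') (fun D' => hg1 D D')
      rw [mem_powersetCard] at hD
      have hDI : D ⊆ Ioc u (u + H) := hD.1.trans (by unfold Jv; exact filter_subset _ _)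
      obtain ⟨c1, c2, c3⟩ := T1_card hp16 hHN hDI
      have hFSN : ∀ n ∈ FS N S D, n ≤ N := by
        intro n hn
        unfold FS at hn
        rw [mem_filter] at hn
        exact hSN n hn.1
      rw [FS_empty, card_im hFSN, union_empty, Eo_refl hp2 hN1' (c2.trans c1.symm), ← hP'] at low2
      have e3 : ∑ D' ∈ P', g D D' * ((FS N ((FS N S D).image (fun n => N - n)) D').card : ℝ) =
          ∑ D' ∈ P', g D D' * ((F2 N S D D').card : ℝ) := by
        apply sum_congr rfl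
        intro D' _
        rw [card_F2 hSN]
      rw [e3] at low2
      exact low2)
  refine le_trans ?_ main
  apply sub_le_sub_left
  exact mul_le_mul_of_nonneg_right hηε (by positivity)

end Pool.Agent.L0h43.TF
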